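import Pool.Agent.LibMV18.Chk
import Pool.Agent.LibMF6.A2a
import Pool.Agent.LibMX34.RDefs

set_option autoImplicit false

namespace Pool.Agent.LibMV18

open MvPolynomial Pool.Agent.Mond61

section
variable {A : Type*} [CommRing A] (x : ℕ → A)

theorem sv_one : sv x one = 1 := by
  have h1 : pv x one.1 = 1 := by
    have : tn one.1 = 1 := rfl
    unfold pv
    rw [this, Finset.sum_range_one]
    have e : tm one.1 0 = 0x1fffff := rfl
    rw [e]
    unfold tv
    have k : tk 0x1fffff = 1 := rfl
    have d0 : td 0x1fffff 0 = 15 := rfl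
    have d1 : td 0x1fffff 1 = 15 := rfl
    have d2 : td 0x1fffff 2 = 15 := rfl
    have d3 : td 0x1fffff 3 = 15 := rfl
    have d4 : td 0x1fffff 4 = 15 := rfl
    rw [k, d0, d1, d2, d3, d4]
    simp [gx]
  have h2 : pv x one.2 = 0 := pv_zero_terms x 0 rfl
  unfold sv
  rw [h1, h2, sub_zero]

theorem sv_y4 : sv x y4 = x 12 := by
  have h1 : pv x y4.1 = x 12 := by
    have : tn y4.1 = 1 := rfl
    unfold pv
    rw [this, Finset.sum_range_one]
    have e : tm y4.1 0 = 0x1ffffc := rfl
    rw [e]
    unfold tv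
    have k : tk 0x1ffffc = 1 := rfl
    have d0 : td 0x1ffffc 0 = 12 := rfl
    have d1 : td 0x1ffffc 1 = 15 := rfl
    have d2 : td 0x1ffffc 2 = 15 := rfl
    have d3 : td 0x1ffffc 3 = 15 := rfl
    have d4 : td 0x1ffffc 4 = 15 := rfl
    rw [k, d0, d1, d2, d3, d4]
    simp [gx]
  have h2 : pv x y4.2 = 0 := pv_zero_terms x 0 rfl
  unfold sv
  rw [h1, h2, sub_zero]

theorem sum_map_range {B : Type*} [AddCommMonoid B] (f : ℕ → B) (n : ℕ) :
    ((List.range n).map f).sum = ∑ i ∈ Finset.range n, f i := by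
  induction n with
  | zero => rfl
  | succ n ih => rw [List.range_succ, List.map_append, List.sum_append, ih, Finset.sum_range_succ]; simp

/-- the matrix identity for one field at any point, for any derivation with `D (x t) = eta_t` -/
theorem entry_id (wt : ℕ) (et : List (ℕ × ℕ)) (al : ℕ × ℕ) (mA mC : List (List (ℕ × ℕ)))
    (h : fldChk wt et al mA mC = true) (D : Derivation ℤ A A) (hD : ∀ t < 13, D (x t) = sv x (et.getD t (0, 0)))
    (a b : ℕ) (ha : a < 8) (hb : b < 8) :
    (if a = b then D (x 12) else 0) - D (sv x (ent m4 a b)) + (x 12 * sv x (ent mA a b) -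
      ∑ k ∈ Finset.range 8, sv x (ent m4 a k) * sv x (ent mA k b)) =
      sv x (ent mC a b) * x 12 - ∑ k ∈ Finset.range 8, sv x (ent mC a k) * sv x (ent m4 k b) := by
  unfold fldChk at h
  rw [Bool.and_eq_true, List.all_eq_true] at h
  have h1 := h.2 a (List.mem_range.2 ha)
  rw [List.all_eq_true] at h1
  have h2 := zchk'_spec x _ _ (h1 b (List.mem_range.2 hb))
  have hDn : ∀ n : ℕ, D (n : A) = 0 := fun n => D.map_natCast n
  have hDpv : ∀ N : ℕ, D (pv x N) = ∑ t ∈ Finset.range 13, lv x (dl t (tl N)) * D (x t) := by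
    intro N
    rw [pv_eq_lv, D_lv x D hDn]
  have hDm : D (sv x (ent m4 a b)) = ∑ t ∈ Finset.range 13, sv x (et.getD t (0, 0)) * sv x (dent dm4 a b t) := by
    unfold sv
    rw [map_sub, hDpv, hDpv, ← Finset.sum_sub_distrib]
    refine Finset.sum_congr rfl fun t ht => ?_
    have ht := Finset.mem_range.1 ht
    obtain ⟨e1, e2⟩ := dm4_ok a ha b hb t ht
    rw [hD t ht, ← e1, ← e2, ← pv_eq_lv, ← pv_eq_lv]
    unfold sv
    ring
  rw [hDm, hD 12 (by norm_num)]
  unfold idL at h2
  simp only [List.map_append, List.sum_append, List.map_cons, List.sum_cons, List.map_map, Function.comp_def, sum_map_range] at h2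
  have hs : ∀ b : Bool, (sg b : A) = cond b (-1) 1 := fun b => rfl
  simp only [hs, cond_true, cond_false, neg_mul, one_mul, Finset.sum_neg_distrib, sv_y4] at h2
  have e : (List.map (fun m : Bool × (ℕ × ℕ) × (ℕ × ℕ) => (cond m.1 (-1) 1 : A) * (sv x m.2.1 * sv x m.2.2))
      (if a = b then [(false, et.getD 12 (0, 0), one)] else [])).sum = if a = b then sv x (et.getD 12 (0, 0)) else 0 := by
    split
    · simp [sv_one]
    · simp
  rw [e] at h2
  linear_combination h2

theorem trace_id (wt : ℕ) (et : List (ℕ × ℕ)) (al : ℕ × ℕ) (mA mC : List (List (ℕ × ℕ)))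
    (h : fldChk wt et al mA mC = true) :
    (∑ k ∈ Finset.range 8, sv x (ent mC k k)) - ∑ k ∈ Finset.range 8, sv x (ent mA k k) = sv x al := by
  unfold fldChk at h
  rw [Bool.and_eq_true] at h
  have h2 := zchk'_spec x _ _ h.1
  unfold trL at h2
  simp only [List.map_append, List.sum_append, List.map_cons, List.sum_cons, List.map_map, Function.comp_def, sum_map_range] at h2
  have hs : ∀ b : Bool, (sg b : A) = cond b (-1) 1 := fun b => rfl
  simp only [hs, cond_true, cond_false, neg_mul, one_mul, Finset.sum_neg_distrib, sv_one] at h2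
  linear_combination -h2

/-- the matrix `M4` from the table -/
def mm (M : List (List (ℕ × ℕ))) : Matrix (Fin 8) (Fin 8) A := Matrix.of fun a b => sv x (ent M a b)

theorem mat_id (wt : ℕ) (et : List (ℕ × ℕ)) (al : ℕ × ℕ) (mA mC : List (List (ℕ × ℕ)))
    (h : fldChk wt et al mA mC = true) (D : Derivation ℤ A A) (hD : ∀ t < 13, D (x t) = sv x (et.getD t (0, 0))) :
    (Matrix.scalar (Fin 8) (x 12) - mm x m4).map D + (Matrix.scalar (Fin 8) (x 12) - mm x m4) * mm x mA =
      mm x mC * (Matrix.scalar (Fin 8) (x 12) - mm x m4) := by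
  ext a b
  have h1 := entry_id x wt et al mA mC h D hD a b a.2 b.2
  rw [sub_mul, mul_sub]
  have e1 : (Matrix.scalar (Fin 8) (x 12) * mm x mA) a b = x 12 * sv x (ent mA a b) := by
    rw [Matrix.scalar_apply, Matrix.diagonal_mul]
    rfl
  have e2 : (mm x mC * Matrix.scalar (Fin 8) (x 12)) a b = sv x (ent mC a b) * x 12 := by
    rw [Matrix.scalar_apply, Matrix.mul_diagonal]
    rfl
  have e3 : ((Matrix.scalar (Fin 8) (x 12) - mm x m4).map D) a b =
      (if (a : ℕ) = b then D (x 12) else 0) - D (sv x (ent m4 a b)) := by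
    rw [Matrix.map_apply, Matrix.sub_apply, map_sub, Matrix.scalar_apply, Matrix.diagonal_apply]
    congr 1
    by_cases hab : a = b
    · subst hab
      simp
    · rw [if_neg hab, if_neg (fun h => hab (Fin.ext h)), map_zero]
  rw [Matrix.add_apply, Matrix.sub_apply, Matrix.sub_apply, e1, e2, e3, Matrix.mul_apply, Matrix.mul_apply]
  rw [Finset.sum_range, Finset.sum_range] at h1
  exact h1

/-- `D det = (tr C - tr A) det` -/
theorem det_id (D : Derivation ℤ A A) (L MA MC : Matrix (Fin 8) (Fin 8) A) (h : L.map D + L * MA = MC * L) :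
    D L.det = (MC.trace - MA.trace) * L.det := by
  rw [Pool.Agent.LibMF6.det_deriv]
  have h1 : (Matrix.of fun i j => D (L i j)) = MC * L - L * MA := eq_sub_of_add_eq h
  rw [h1, mul_sub, Matrix.trace_sub]
  have e1 : (L.adjugate * (MC * L)).trace = MC.trace * L.det := by
    rw [Matrix.trace_mul_comm, Matrix.mul_assoc, Matrix.mul_adjugate, Matrix.mul_smul, Matrix.mul_one, Matrix.trace_smul,
      smul_eq_mul, mul_comm]
  have e2 : (L.adjugate * (L * MA)).trace = MA.trace * L.det := by
    rw [← Matrix.mul_assoc, Matrix.adjugate_mul, Matrix.smul_mul, Matrix.one_mul, Matrix.trace_smul, smul_eq_mul, mul_comm]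
  rw [e1, e2]
  ring

/-- the determinant identity -/
theorem det_tab (wt : ℕ) (et : List (ℕ × ℕ)) (al : ℕ × ℕ) (mA mC : List (List (ℕ × ℕ)))
    (h : fldChk wt et al mA mC = true) (D : Derivation ℤ A A) (hD : ∀ t < 13, D (x t) = sv x (et.getD t (0, 0))) :
    D (Matrix.scalar (Fin 8) (x 12) - mm x m4).det = sv x al * (Matrix.scalar (Fin 8) (x 12) - mm x m4).det := by
  rw [det_id D _ _ _ (mat_id x wt et al mA mC h D hD), ← trace_id x wt et al mA mC h, Finset.sum_range, Finset.sum_range]
  rfl

end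

end Pool.Agent.LibMV18
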