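import Pool.Agent.LibMV18.Ga17
import Pool.Agent.LibMV18.Gb17

set_option autoImplicit false

namespace Pool.Agent.LibMV18

theorem e17_7_0 : entChk 2 et17 mA17 mC17 7 0 = true := by
  decide +kernel
theorem r17_7 : rowChk 2 et17 mA17 mC17 7 = true :=
  row_of 7 e17_7_0 e17_7_1 e17_7_2 e17_7_3 e17_7_4 e17_7_5 e17_7_6 e17_7_7
theorem t17 : zchk' 2 (trL al17 mA17 mC17) = true := by
  decide +kernel

theorem chk17 : fldChk 2 et17 al17 mA17 mC17 = true :=
  fld_of t17 r17_0 r17_1 r17_2 r17_3 r17_4 r17_5 r17_6 r17_7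

end Pool.Agent.LibMV18
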