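import Pool.Agent.LibMV18.Ga18
import Pool.Agent.LibMV18.Gb18

set_option autoImplicit false

namespace Pool.Agent.LibMV18

theorem e18_7_0 : entChk 2 et18 mA18 mC18 7 0 = true := by
  decide +kernel
theorem r18_7 : rowChk 2 et18 mA18 mC18 7 = true :=
  row_of 7 e18_7_0 e18_7_1 e18_7_2 e18_7_3 e18_7_4 e18_7_5 e18_7_6 e18_7_7
theorem t18 : zchk' 2 (trL al18 mA18 mC18) = true := by
  decide +kernel

theorem chk18 : fldChk 2 et18 al18 mA18 mC18 = true :=
  fld_of t18 r18_0 r18_1 r18_2 r18_3 r18_4 r18_5 r18_6 r18_7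

end Pool.Agent.LibMV18
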