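import Pool.Agent.LibMV18.Ga19
import Pool.Agent.LibMV18.Gb19

set_option autoImplicit false

namespace Pool.Agent.LibMV18

theorem e19_7_0 : entChk 2 et19 mA19 mC19 7 0 = true := by
  decide +kernel
theorem r19_7 : rowChk 2 et19 mA19 mC19 7 = true :=
  row_of 7 e19_7_0 e19_7_1 e19_7_2 e19_7_3 e19_7_4 e19_7_5 e19_7_6 e19_7_7
theorem t19 : zchk' 2 (trL al19 mA19 mC19) = true := by
  decide +kernel

theorem chk19 : fldChk 2 et19 al19 mA19 mC19 = true :=
  fld_of t19 r19_0 r19_1 r19_2 r19_3 r19_4 r19_5 r19_6 r19_7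

end Pool.Agent.LibMV18
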