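import Pool.Agent.LibMV18.Ga15
import Pool.Agent.LibMV18.Gb15

set_option autoImplicit false

namespace Pool.Agent.LibMV18

theorem e15_7_0 : entChk 2 et15 mA15 mC15 7 0 = true := by
  decide +kernel
theorem r15_7 : rowChk 2 et15 mA15 mC15 7 = true :=
  row_of 7 e15_7_0 e15_7_1 e15_7_2 e15_7_3 e15_7_4 e15_7_5 e15_7_6 e15_7_7
theorem t15 : zchk' 2 (trL al15 mA15 mC15) = true := by
  decide +kernel

theorem chk15 : fldChk 2 et15 al15 mA15 mC15 = true :=
  fld_of t15 r15_0 r15_1 r15_2 r15_3 r15_4 r15_5 r15_6 r15_7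

end Pool.Agent.LibMV18
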