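import Pool.Agent.LibMV18.Ga16
import Pool.Agent.LibMV18.Gb16

set_option autoImplicit false

namespace Pool.Agent.LibMV18

theorem e16_7_0 : entChk 2 et16 mA16 mC16 7 0 = true := by
  decide +kernel
theorem r16_7 : rowChk 2 et16 mA16 mC16 7 = true :=
  row_of 7 e16_7_0 e16_7_1 e16_7_2 e16_7_3 e16_7_4 e16_7_5 e16_7_6 e16_7_7
theorem t16 : zchk' 2 (trL al16 mA16 mC16) = true := by
  decide +kernel

theorem chk16 : fldChk 2 et16 al16 mA16 mC16 = true :=
  fld_of t16 r16_0 r16_1 r16_2 r16_3 r16_4 r16_5 r16_6 r16_7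

end Pool.Agent.LibMV18
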