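import Pool.Agent.LibMV18.Link
import Pool.Agent.LibMV18.F0
import Pool.Agent.LibMV18.F1
import Pool.Agent.LibMV18.F2
import Pool.Agent.LibMV18.F3
import Pool.Agent.LibMV18.F4
import Pool.Agent.LibMV18.F5
import Pool.Agent.LibMV18.F6
import Pool.Agent.LibMV18.F7
import Pool.Agent.LibMV18.F8
import Pool.Agent.LibMV18.F9
import Pool.Agent.LibMV18.F10
import Pool.Agent.LibMV18.F11
import Pool.Agent.LibMV18.F12
import Pool.Agent.LibMV18.F13
import Pool.Agent.LibMV18.F14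
import Pool.Agent.LibMV18.F15
import Pool.Agent.LibMV18.F16
import Pool.Agent.LibMV18.F17
import Pool.Agent.LibMV18.F18
import Pool.Agent.LibMV18.F19

set_option autoImplicit false

/-! MP_ed98ad_ag, block R: the 20 mother fields: `∑ t, etaP i t * ∂_t GG = alphaP i * GG` in `ℤ[Y1..Y4, v1..v9]`. -/

namespace Pool.Agent.LibMV18

open MvPolynomial Pool.Agent.Mond61 Pool.Agent.LibMX34

/-- the data of a mother field -/
structure Fld where
  wt : ℕ
  et : List (ℕ × ℕ)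
  al : ℕ × ℕ
  mA : List (List (ℕ × ℕ))
  mC : List (List (ℕ × ℕ))

/-- the 20 mother fields -/
def flds : Fin 20 → Fld :=
  ![⟨1, et0, al0, mA0, mC0⟩,
    ⟨1, et1, al1, mA1, mC1⟩,
    ⟨1, et2, al2, mA2, mC2⟩,
    ⟨1, et3, al3, mA3, mC3⟩,
    ⟨1, et4, al4, mA4, mC4⟩,
    ⟨1, et5, al5, mA5, mC5⟩,
    ⟨1, et6, al6, mA6, mC6⟩,
    ⟨1, et7, al7, mA7, mC7⟩,
    ⟨1, et8, al8, mA8, mC8⟩,
    ⟨1, et9, al9, mA9, mC9⟩,
    ⟨1, et10, al10, mA10, mC10⟩,
    ⟨1, et11, al11, mA11, mC11⟩,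
    ⟨1, et12, al12, mA12, mC12⟩,
    ⟨1, et13, al13, mA13, mC13⟩,
    ⟨2, et14, al14, mA14, mC14⟩,
    ⟨2, et15, al15, mA15, mC15⟩,
    ⟨2, et16, al16, mA16, mC16⟩,
    ⟨2, et17, al17, mA17, mC17⟩,
    ⟨2, et18, al18, mA18, mC18⟩,
    ⟨2, et19, al19, mA19, mC19⟩]

theorem flds_chk (i : Fin 20) : fldChk (flds i).wt (flds i).et (flds i).al (flds i).mA (flds i).mC = true := by
  fin_cases i
  · exact chk0
  · exact chk1
  · exact chk2
  · exact chk3
  · exact chk4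
  · exact chk5
  · exact chk6
  · exact chk7
  · exact chk8
  · exact chk9
  · exact chk10
  · exact chk11
  · exact chk12
  · exact chk13
  · exact chk14
  · exact chk15
  · exact chk16
  · exact chk17
  · exact chk18
  · exact chk19

/-- the point `(v1, .., v9, Y1, .., Y4)` (internal order) of `ℤ[Y1..Y4, v1..v9]` -/
noncomputable def xT (d : ℕ) : MvPolynomial (Fin 13) ℤ :=
  if d < 9 then X (Fin.ofNat 13 (d + 4)) else X (Fin.ofNat 13 (d - 9))

/-- internal number of a variable of `ℤ[Y1..Y4, v1..v9]` -/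
def toI (t : Fin 13) : ℕ := if (t : ℕ) < 4 then t + 9 else t - 4

/-- packed coefficient of `∂_t` of the field `i` (positive, negative part) -/
def etaN (i : Fin 20) (t : Fin 13) : ℕ × ℕ := (flds i).et.getD (toI t) (0, 0)

/-- coefficient of `∂_t` of the field `i` -/
noncomputable def etaP (i : Fin 20) (t : Fin 13) : MvPolynomial (Fin 13) ℤ := sv xT (etaN i t)

/-- `η_i GG = alphaP i * GG` -/
noncomputable def alphaP (i : Fin 20) : MvPolynomial (Fin 13) ℤ := sv xT (flds i).al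

/-- the field `i` as a derivation -/
noncomputable def etaD (i : Fin 20) : Derivation ℤ (MvPolynomial (Fin 13) ℤ) (MvPolynomial (Fin 13) ℤ) :=
  mkDerivation ℤ (etaP i)

theorem etaD_apply (i : Fin 20) (f : MvPolynomial (Fin 13) ℤ) : etaD i f = ∑ t, etaP i t * pderiv t f := by
  have hs : ∀ (D : Fin 13 → Derivation ℤ (MvPolynomial (Fin 13) ℤ) (MvPolynomial (Fin 13) ℤ)) (g : MvPolynomial (Fin 13) ℤ),
      (∑ t, D t) g = ∑ t, D t g := by
    intro D g
    have h := map_sum (Derivation.coeFnAddMonoidHom (R := ℤ) (A := MvPolynomial (Fin 13) ℤ) (M := MvPolynomial (Fin 13) ℤ)) D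
      Finset.univ
    have h2 := congrFun h g
    rw [Finset.sum_apply] at h2
    exact h2
  have h : etaD i = ∑ t, etaP i t • (pderiv t : Derivation ℤ (MvPolynomial (Fin 13) ℤ) (MvPolynomial (Fin 13) ℤ)) := by
    refine derivation_ext fun j => ?_
    unfold etaD
    rw [mkDerivation_X, hs]
    simp [pderiv_X, Pi.single_apply]
  rw [h, hs]
  simp

theorem xT_toI (t : Fin 13) : xT (toI t) = X t := by
  fin_cases t <;> rfl

theorem etaD_xT (i : Fin 20) (t : ℕ) (ht : t < 13) : etaD i (xT t) = sv xT ((flds i).et.getD t (0, 0)) := by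
  obtain ⟨u, hu⟩ : ∃ u : Fin 13, toI u = t := by
    interval_cases t
    exacts [⟨4, rfl⟩, ⟨5, rfl⟩, ⟨6, rfl⟩, ⟨7, rfl⟩, ⟨8, rfl⟩, ⟨9, rfl⟩, ⟨10, rfl⟩, ⟨11, rfl⟩, ⟨12, rfl⟩, ⟨0, rfl⟩, ⟨1, rfl⟩, ⟨2, rfl⟩, ⟨3, rfl⟩]
  subst hu
  rw [xT_toI]
  unfold etaD
  rw [mkDerivation_X]
  rfl

theorem GG_eq : GG = (Matrix.scalar (Fin 8) (xT 12) - mm xT m4).det := by
  rw [← m4_ok]
  unfold GG
  have e : (fun k : Fin 9 => (X (Fin.natAdd 4 k) : MvPolynomial (Fin 13) ℤ)) = fun k : Fin 9 => xT k := by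
    funext k
    fin_cases k <;> rfl
  have e' : (fun j : Fin 3 => (X (Fin.castLE (by omega) j) : MvPolynomial (Fin 13) ℤ)) = fun j : Fin 3 => xT (9 + j) := by
    funext j
    fin_cases j <;> rfl
  rw [e, e']
  rfl

/-- **the mother identities** -/
theorem hmother (i : Fin 20) : ∑ t, etaP i t * pderiv t GG = alphaP i * GG := by
  rw [← etaD_apply, GG_eq]
  exact det_tab xT (flds i).wt (flds i).et (flds i).al (flds i).mA (flds i).mC (flds_chk i) (etaD i) (etaD_xT i)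

end Pool.Agent.LibMV18
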