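import Pool.Agent.Mond61.PolyCert4

set_option autoImplicit false

/-! Transparent literals for `Mond61.PolyCert`: a polynomial with natural coefficients in 13 variables is ONE number
`N = n + 2^12 * sum_i c_i 2^(32 i)`, `n` terms, term code `c = coefficient * 2^20 + sum_(j<5) d_j 16^j`, digit `d_j` = variable
(15 = none).  `pv x N` is its value at the point `x`; `zchk_spec`: kernel-checked identities `∑ ± X Y = 0`. -/

namespace Pool.Agent.LibMV18

open MvPolynomial Pool.Agent.Mond61

/-- number of terms -/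
def tn (N : ℕ) : ℕ := Nat.mod N (nat_lit 4096)

/-- code of the `i`-th term -/
def tm (N i : ℕ) : ℕ :=
  Nat.mod (Nat.shiftRight N (Nat.add (nat_lit 12) (Nat.mul (nat_lit 32) i))) (nat_lit 4294967296)

/-- coefficient of a term code -/
def tk (c : ℕ) : ℕ := Nat.shiftRight c (nat_lit 20)

/-- `j`-th digit (variable) of a term code -/
def td (c j : ℕ) : ℕ := Nat.mod (Nat.shiftRight c (Nat.mul (nat_lit 4) j)) (nat_lit 16)

section
variable {A : Type*} [CommSemiring A] (x : ℕ → A)

/-- the value of variable `d`; `1` for `d ≥ 13` -/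
def gx (d : ℕ) : A := if d < 13 then x d else 1

/-- value of a term code -/
def tv (c : ℕ) : A := (tk c : A) * (gx x (td c 0) * gx x (td c 1) * gx x (td c 2) * gx x (td c 3) * gx x (td c 4))

/-- value of a packed polynomial at the point `x` -/
def pv (N : ℕ) : A := ∑ i ∈ Finset.range (tn N), tv x (tm N i)

end

/-- expressions; in `mul d a b` the number `d` is the weight of `a` -/
inductive E : Type
  | t (N : ℕ)
  | add (a b : E)
  | mul (d : ℕ) (a b : E)

/-- value of an expression -/
def E.ev {A : Type*} [CommSemiring A] (x : ℕ → A) : E → A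
  | .t N => pv x N
  | .add a b => a.ev x + b.ev x
  | .mul _ a b => a.ev x * b.ev x

section
variable {A B : Type*} [CommSemiring A] [CommSemiring B]

theorem map_gx (φ : A →+* B) (x : ℕ → A) (d : ℕ) : φ (gx x d) = gx (fun i => φ (x i)) d := by
  unfold gx
  split
  · rfl
  · exact map_one φ

theorem map_tv (φ : A →+* B) (x : ℕ → A) (c : ℕ) : φ (tv x c) = tv (fun i => φ (x i)) c := by
  unfold tv
  simp only [map_mul, map_gx, map_natCast]

theorem map_pv (φ : A →+* B) (x : ℕ → A) (N : ℕ) : φ (pv x N) = pv (fun i => φ (x i)) N := by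
  unfold pv
  simp only [map_sum, map_tv]

theorem map_ev (φ : A →+* B) (x : ℕ → A) (e : E) : φ (e.ev x) = e.ev (fun i => φ (x i)) := by
  induction e with
  | t N => exact map_pv φ x N
  | add a b iha ihb => unfold E.ev; rw [map_add, iha, ihb]
  | mul d a b iha ihb => unfold E.ev; rw [map_mul, iha, ihb]

theorem gx_congr {x y : ℕ → A} (h : ∀ d < 13, x d = y d) (d : ℕ) : gx x d = gx y d := by
  unfold gx
  split
  · exact h d (by assumption)
  · rfl

theorem tv_congr {x y : ℕ → A} (h : ∀ d < 13, x d = y d) (c : ℕ) : tv x c = tv y c := by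
  unfold tv
  simp only [gx_congr h]

theorem pv_congr {x y : ℕ → A} (h : ∀ d < 13, x d = y d) (N : ℕ) : pv x N = pv y N := by
  unfold pv
  simp only [tv_congr h]

theorem ev_congr {x y : ℕ → A} (h : ∀ d < 13, x d = y d) (e : E) : e.ev x = e.ev y := by
  induction e with
  | t N => exact pv_congr h N
  | add a b iha ihb => unfold E.ev; rw [iha, ihb]
  | mul d a b iha ihb => unfold E.ev; rw [iha, ihb]

end

/-- entry `d` of a packed table -/
def te (T d : ℕ) : ℕ := Nat.mod (Nat.shiftRight T (Nat.mul (nat_lit 32) d)) (nat_lit 4294967296)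

/-- sum of the table entries of the digits -/
def tsum (T c : ℕ) : ℕ :=
  Nat.add (te T (td c (nat_lit 0))) (Nat.add (te T (td c (nat_lit 1))) (Nat.add (te T (td c (nat_lit 2)))
    (Nat.add (te T (td c (nat_lit 3))) (te T (td c (nat_lit 4))))))

/-- Kronecker value of a packed polynomial -/
noncomputable def kvT (w T N : ℕ) : ℕ :=
  Nat.rec (motive := fun _ => ℕ) (nat_lit 0)
    (fun i ih => Nat.add (Nat.shiftLeft (tk (tm N i)) (Nat.mul w (tsum T (tm N i)))) ih) (tn N)

/-- sum of the coefficients -/
noncomputable def nrT (N : ℕ) : ℕ :=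
  Nat.rec (motive := fun _ => ℕ) (nat_lit 0) (fun i ih => Nat.add (tk (tm N i)) ih) (tn N)

/-- all terms have weight `D` -/
noncomputable def hoT (T N D : ℕ) : Bool :=
  Nat.rec (motive := fun _ => Bool) true
    (fun i ih => Bool.rec (motive := fun _ => Bool) false ih (Nat.beq (tsum T (tm N i)) D)) (tn N)

theorem kvT_eq (w T N : ℕ) : kvT w T N = ∑ i ∈ Finset.range (tn N), tk (tm N i) * 2 ^ (w * tsum T (tm N i)) := by
  have h : ∀ n, (Nat.rec (motive := fun _ => ℕ) (nat_lit 0)
      (fun i ih => Nat.add (Nat.shiftLeft (tk (tm N i)) (Nat.mul w (tsum T (tm N i)))) ih) n : ℕ) =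
      ∑ i ∈ Finset.range n, tk (tm N i) * 2 ^ (w * tsum T (tm N i)) := by
    intro n
    induction n with
    | zero => rfl
    | succ n ih =>
      rw [Finset.sum_range_succ, ← ih]
      refine (Nat.add_comm _ _).trans ?_
      congr 1
      exact Nat.shiftLeft_eq _ _
  exact h _

theorem nrT_eq (N : ℕ) : nrT N = ∑ i ∈ Finset.range (tn N), tk (tm N i) := by
  have h : ∀ n, (Nat.rec (motive := fun _ => ℕ) (nat_lit 0) (fun i ih => Nat.add (tk (tm N i)) ih) n : ℕ) =
      ∑ i ∈ Finset.range n, tk (tm N i) := by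
    intro n
    induction n with
    | zero => rfl
    | succ n ih =>
      rw [Finset.sum_range_succ, ← ih]
      exact Nat.add_comm _ _
  exact h _

theorem hoT_spec (T N D : ℕ) (h : hoT T N D = true) : ∀ i < tn N, tsum T (tm N i) = D := by
  have key : ∀ n, (Nat.rec (motive := fun _ => Bool) true
      (fun i ih => Bool.rec (motive := fun _ => Bool) false ih (Nat.beq (tsum T (tm N i)) D)) n : Bool) = true →
      ∀ i < n, tsum T (tm N i) = D := by
    intro n
    induction n with
    | zero => intro _ i hi; omega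
    | succ n ih =>
      intro h
      have h' : (Bool.rec (motive := fun _ => Bool) false (Nat.rec (motive := fun _ => Bool) true
        (fun i ih => Bool.rec (motive := fun _ => Bool) false ih (Nat.beq (tsum T (tm N i)) D)) n : Bool)
          (Nat.beq (tsum T (tm N n)) D) : Bool) = true := h
      cases hb : Nat.beq (tsum T (tm N n)) D with
      | false => rw [hb] at h'; exact absurd h' (by simp)
      | true =>
        rw [hb] at h'
        intro i hi
        rcases Nat.lt_succ_iff_lt_or_eq.1 hi with hi | rfl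
        · exact ih h' i hi
        · exact Nat.eq_of_beq_eq_true hb
  exact key _ h

/-- the packed table `T` is the list `s` -/
def TabOK (T : ℕ) (s : List ℕ) : Prop := ∀ d < 16, te T d = s.getD d 0

/-- Kronecker value -/
noncomputable def E.kv (w T : ℕ) (e : E) : ℕ :=
  E.rec (motive := fun _ => ℕ) (fun N => kvT w T N) (fun _ _ x y => Nat.add x y) (fun _ _ _ x y => Nat.mul x y) e

/-- bound for the sum of the coefficients -/
noncomputable def E.nrm (e : E) : ℕ :=
  E.rec (motive := fun _ => ℕ) (fun N => nrT N) (fun _ _ x y => Nat.add x y) (fun _ _ _ x y => Nat.mul x y) e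

/-- the expression is homogeneous of weight `D` -/
noncomputable def E.hom (T : ℕ) (e : E) : ℕ → Bool :=
  E.rec (motive := fun _ => ℕ → Bool) (fun N D => hoT T N D)
    (fun _ _ x y D => and (x D) (y D)) (fun d _ _ x y D => and (Nat.ble d D) (and (x d) (y (Nat.sub D d)))) e

/-- the generic point -/
noncomputable def xs (s : List ℕ) (d : ℕ) : MvPolynomial (Fin s.length) ℕ := if h : d < s.length then X ⟨d, h⟩ else 0

theorem td_lt (c j : ℕ) : td c j < 16 := Nat.mod_lt _ (by norm_num)

theorem gx_pow (w T : ℕ) (s : List ℕ) (hs : s.length = 13) (hT : TabOK T s) (d : ℕ) (hd : d < 16) :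
    gx (fun d => 2 ^ (w * s.getD d 0)) d = 2 ^ (w * te T d) := by
  unfold gx
  split
  · rw [hT d hd]
  · rename_i h
    rw [hT d hd, List.getD_eq_default _ _ (by omega)]
    simp

theorem ev_pow (w T : ℕ) (s : List ℕ) (hs : s.length = 13) (hT : TabOK T s) (e : E) :
    e.ev (fun d => 2 ^ (w * s.getD d 0)) = e.kv w T := by
  induction e with
  | t N =>
    change pv _ N = kvT w T N
    rw [kvT_eq]
    unfold pv
    refine Finset.sum_congr rfl fun i _ => ?_
    unfold tv
    simp only [gx_pow w T s hs hT _ (td_lt _ _)]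
    change _ = _ * 2 ^ (w * (te T _ + (te T _ + (te T _ + (te T _ + te T _)))))
    rw [Nat.cast_id]
    congr 1
    rw [← pow_add, ← pow_add, ← pow_add, ← pow_add]
    congr 1
    change w * te T (td (tm N i) 0) + w * te T (td (tm N i) 1) + w * te T (td (tm N i) 2) + w * te T (td (tm N i) 3)
      + w * te T (td (tm N i) 4) = w * (te T (td (tm N i) 0) + (te T (td (tm N i) 1) + (te T (td (tm N i) 2)
      + (te T (td (tm N i) 3) + te T (td (tm N i) 4)))))
    ring
  | add a b iha ihb => unfold E.ev; rw [iha, ihb]; rfl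
  | mul d a b iha ihb => unfold E.ev; rw [iha, ihb]; rfl

theorem gx_one (d : ℕ) : gx (fun _ => (1 : ℕ)) d = 1 := by
  unfold gx
  split <;> rfl

theorem ev_one (e : E) : e.ev (fun _ => (1 : ℕ)) = e.nrm := by
  induction e with
  | t N =>
    change pv _ N = nrT N
    rw [nrT_eq]
    unfold pv
    refine Finset.sum_congr rfl fun i _ => ?_
    unfold tv
    simp only [gx_one, mul_one]
    rfl
  | add a b iha ihb => unfold E.ev; rw [iha, ihb]; rfl
  | mul d a b iha ihb => unfold E.ev; rw [iha, ihb]; rfl

theorem gx_hom (T : ℕ) (s ws : List ℕ) (hs : s.length = 13) (hws : ws.length = 13) (hT : TabOK T ws) (d : ℕ) (hd : d < 16) :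
    (gx (xs s) d).IsWeightedHomogeneous (wf s ws) (te T d) := by
  unfold gx
  rw [hT d hd]
  split
  · rename_i h
    unfold xs
    rw [dif_pos (by omega)]
    exact isWeightedHomogeneous_X _ _ _
  · rename_i h
    rw [List.getD_eq_default _ _ (by omega)]
    exact isWeightedHomogeneous_one _ _

theorem ev_hom (T : ℕ) (s ws : List ℕ) (hs : s.length = 13) (hws : ws.length = 13) (hT : TabOK T ws) (e : E) :
    ∀ D, e.hom T D = true → (e.ev (xs s)).IsWeightedHomogeneous (wf s ws) D := by
  induction e with
  | t N =>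
    intro D h
    have h1 := hoT_spec T N D h
    change (pv (xs s) N).IsWeightedHomogeneous _ _
    unfold pv
    refine sum_mem (S := weightedHomogeneousSubmodule ℕ (wf s ws) D) fun i hi => ?_
    change (tv (xs s) (tm N i)).IsWeightedHomogeneous _ _
    have h2 := h1 i (Finset.mem_range.1 hi)
    have g := fun j => gx_hom T s ws hs hws hT (td (tm N i) j) (td_lt _ _)
    have h3 := (isWeightedHomogeneous_C (R := ℕ) (wf s ws) (tk (tm N i))).mul
      (((((g 0).mul (g 1)).mul (g 2)).mul (g 3)).mul (g 4))
    have h4 : 0 + (te T (td (tm N i) 0) + te T (td (tm N i) 1) + te T (td (tm N i) 2) + te T (td (tm N i) 3)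
        + te T (td (tm N i) 4)) = D := by
      rw [← h2]
      change _ = te T (td (tm N i) 0) + (te T (td (tm N i) 1) + (te T (td (tm N i) 2) + (te T (td (tm N i) 3)
        + te T (td (tm N i) 4))))
      ring
    rw [h4] at h3
    unfold tv
    exact h3
  | add a b iha ihb =>
    intro D h
    have h' : and (a.hom T D) (b.hom T D) = true := h
    rw [Bool.and_eq_true] at h'
    exact (iha D h'.1).add (ihb D h'.2)
  | mul d a b iha ihb =>
    intro D h
    have h' : and (Nat.ble d D) (and (a.hom T d) (b.hom T (D - d))) = true := h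
    rw [Bool.and_eq_true, Bool.and_eq_true] at h'
    have h1 : d ≤ D := Nat.le_of_ble_eq_true h'.1
    have := (iha d h'.2.1).mul (ihb _ h'.2.2)
    rw [Nat.add_sub_cancel' h1] at this
    exact this


/-- all monomials of weight `D` have different positions -/
def InjOK (s ws : List ℕ) (D : ℕ) : Prop :=
  s.length = ws.length ∧ (∀ w ∈ ws, 0 < w) ∧ ((monos ws D).map (pos s)).Nodup

theorem P_inj' {s ws : List ℕ} {D : ℕ} (h : InjOK s ws D) {a b : Fin s.length →₀ ℕ} (ha : wt s ws a = D)
    (hb : wt s ws b = D) (hab : P s a = P s b) : a = b := by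
  rw [P_eq_pos, P_eq_pos] at hab
  have := List.inj_on_of_nodup_map h.2.2 (ofFn_mem s ws h.1 h.2.1 D a ha) (ofFn_mem s ws h.1 h.2.1 D b hb) hab
  rw [← toFs_ofFn s a, ← toFs_ofFn s b, this]

/-- `∑ 2 ^ (K * position)` over all monomials of weight `D`; list of pairs (stride, weight) -/
noncomputable def bk (K : ℕ) (l : List (ℕ × ℕ)) : ℕ → ℕ :=
  List.rec (motive := fun _ => ℕ → ℕ)
    (fun D => Nat.rec (motive := fun _ => ℕ) (nat_lit 1) (fun _ _ => nat_lit 0) D)
    (fun p _ ih D => Bool.rec (motive := fun _ => ℕ)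
      (Nat.rec (motive := fun _ => ℕ) (nat_lit 0)
        (fun e acc => Nat.add acc (Nat.shiftLeft (ih (Nat.sub D (Nat.mul p.2 e))) (Nat.mul K (Nat.mul p.1 e))))
        (Nat.add (Nat.div D p.2) (nat_lit 1)))
      (Nat.rec (motive := fun _ => ℕ) (ih (nat_lit 0))
        (fun d acc => Nat.add (ih (Nat.succ d)) (Nat.shiftLeft acc (Nat.mul K p.1))) D)
      (Nat.beq p.2 (nat_lit 1))) l

theorem sum_flatMap_range {α : Type*} (f : ℕ → List α) (g : α → ℕ) (n : ℕ) :
    (((List.range n).flatMap f).map g).sum = ∑ e ∈ Finset.range n, ((f e).map g).sum := by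
  induction n with
  | zero => rfl
  | succ n ih =>
    rw [List.range_succ, List.flatMap_append, List.map_append, List.sum_append, ih, Finset.sum_range_succ]
    congr 1
    simp

theorem bk_eq (K : ℕ) : ∀ (l : List (ℕ × ℕ)) (D : ℕ),
    bk K l D = ((monos (l.map Prod.snd) D).map fun m => 2 ^ (K * pos (l.map Prod.fst) m)).sum
  | [], D => by
    cases D with
    | zero => simp [monos, bk, pos_nil]
    | succ D => simp [monos, bk]
  | (a, w) :: l, D => by
    have ih := bk_eq K l
    have h1 : bk K ((a, w) :: l) D = ∑ e ∈ Finset.range (D / w + 1), (bk K l (D - w * e)) * 2 ^ (K * (a * e)) := by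
      have h : ∀ n, (Nat.rec (motive := fun _ => ℕ) (nat_lit 0)
          (fun e acc => Nat.add acc (Nat.shiftLeft (bk K l (Nat.sub D (Nat.mul w e))) (Nat.mul K (Nat.mul a e)))) n : ℕ) =
          ∑ e ∈ Finset.range n, (bk K l (D - w * e)) * 2 ^ (K * (a * e)) := by
        intro n
        induction n with
        | zero => rfl
        | succ n ih =>
          rw [Finset.sum_range_succ, ← ih, ← Nat.shiftLeft_eq]
          rfl
      have h' : ∀ D, (Nat.rec (motive := fun _ => ℕ) (bk K l (nat_lit 0))
          (fun d acc => Nat.add (bk K l (Nat.succ d)) (Nat.shiftLeft acc (Nat.mul K a))) D : ℕ) =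
          ∑ e ∈ Finset.range (D + 1), (bk K l (D - e)) * 2 ^ (K * (a * e)) := by
        intro D
        induction D with
        | zero => simp
        | succ D ih =>
          rw [Finset.sum_range_succ']
          change bk K l (D + 1) + Nat.shiftLeft _ (K * a) = _
          rw [ih]
          change _ + (∑ e ∈ Finset.range (D + 1), (bk K l (D - e)) * 2 ^ (K * (a * e))) <<< (K * a) = _
          rw [Nat.shiftLeft_eq, Finset.sum_mul, add_comm]
          congr 1
          · refine Finset.sum_congr rfl fun e _ => ?_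
            rw [mul_assoc, ← pow_add]
            congr 2
            · omega
            · ring
          · simp
      change (Bool.rec (motive := fun _ => ℕ) (Nat.rec (motive := fun _ => ℕ) (nat_lit 0)
          (fun e acc => Nat.add acc (Nat.shiftLeft (bk K l (Nat.sub D (Nat.mul w e))) (Nat.mul K (Nat.mul a e))))
          (D / w + 1)) (Nat.rec (motive := fun _ => ℕ) (bk K l (nat_lit 0))
          (fun d acc => Nat.add (bk K l (Nat.succ d)) (Nat.shiftLeft acc (Nat.mul K a))) D) (Nat.beq w 1) : ℕ) = _
      cases hb : Nat.beq w 1 with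
      | false => exact h (D / w + 1)
      | true =>
        have hw : w = 1 := Nat.eq_of_beq_eq_true hb
        subst hw
        rw [Nat.div_one]
        simp only [one_mul]
        exact h' D
    rw [h1]
    change _ = ((monos (w :: l.map Prod.snd) D).map fun m => 2 ^ (K * pos (a :: l.map Prod.fst) m)).sum
    unfold monos
    rw [sum_flatMap_range]
    refine Finset.sum_congr rfl fun e _ => ?_
    rw [ih, List.map_map, ← List.sum_map_mul_right]
    congr 1
    refine List.map_congr_left fun m _ => ?_
    change 2 ^ _ * 2 ^ _ = 2 ^ (K * (a * e + pos (l.map Prod.fst) m))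
    rw [← pow_add]
    congr 1
    ring

theorem nodup_of_digits (K : ℕ) (l : List ℕ) (hl : l.length < 2 ^ K)
    (h : ∀ j, (l.map fun p => 2 ^ (K * p)).sum / (2 ^ K) ^ j % 2 ^ K < 2) : l.Nodup := by
  classical
  rw [List.nodup_iff_count_le_one]
  intro p
  by_cases hp : p ∈ l
  · have h1 : (l.map fun p => 2 ^ (K * p)).sum = ∑ q ∈ l.toFinset, l.count q * 2 ^ (K * q) := by
      rw [Finset.sum_list_map_count]
      exact Finset.sum_congr rfl fun q _ => smul_eq_mul _ _
    have h2 := digit_sum l.toFinset (fun q => l.count q) (fun q => q) K (fun a _ b _ h => h) (by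
      rw [← Multiset.coe_card, ← Multiset.toFinset_sum_count_eq] at hl
      simpa using hl) (List.mem_toFinset.2 hp)
    have h3 := h p
    rw [h1, ← pow_mul, h2] at h3
    omega
  · rw [List.count_eq_zero_of_not_mem hp]
    omega

/-- check that all monomials of weight `D` have different positions (at most `L`) -/
noncomputable def injChk (K L : ℕ) (l : List (ℕ × ℕ)) (D : ℕ) : Bool :=
  and (Nat.blt (bk (nat_lit 0) l D) (Nat.pow (nat_lit 2) K)) (and (Nat.blt (nat_lit 1) K)
    (and (Nat.blt (bk K l D) (Nat.pow (nat_lit 2) (Nat.mul K L)))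
      (Nat.beq (Nat.land (bk K l D) (hmask K (Nat.sub K (nat_lit 1)) L)) (nat_lit 0))))

theorem injChk_spec (K L : ℕ) (l : List (ℕ × ℕ)) (D : ℕ) (hw : ∀ w ∈ l.map Prod.snd, 0 < w)
    (h : injChk K L l D = true) : InjOK (l.map Prod.fst) (l.map Prod.snd) D := by
  unfold injChk at h
  simp only [Bool.and_eq_true] at h
  obtain ⟨h1, h2, h3, h4⟩ := h
  have h1 : bk 0 l D < 2 ^ K := by simpa [Nat.blt_eq] using h1
  have h2 : 1 < K := by simpa [Nat.blt_eq] using h2
  have h3 : bk K l D < 2 ^ (K * L) := by simpa [Nat.blt_eq] using h3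
  have h4 : Nat.land (bk K l D) (hmask K (K - 1) L) = 0 := Nat.eq_of_beq_eq_true h4
  refine ⟨by simp, hw, ?_⟩
  have h5 := hmask_spec K (K - 1) L _ (by omega) (by omega) (by omega) h3 h4
  refine nodup_of_digits K _ ?_ ?_
  · rw [List.length_map]
    rw [bk_eq] at h1
    simpa using h1
  · intro j
    have h6 := h5 j
    rw [show K - (K - 1) = 1 by omega, pow_one, bk_eq] at h6
    rw [List.map_map]
    exact h6

/-- the coefficients are the digits of the Kronecker value -/
theorem digit (s ws : List ℕ) (T Tw : ℕ) (w D : ℕ) (hV : InjOK s ws D) (hs : s.length = 13)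
    (hT : TabOK T s) (hTw : TabOK Tw ws) (e : E)
    (h : e.hom Tw D = true) (hn : e.nrm < 2 ^ w) (m : Fin s.length →₀ ℕ) (hm : wt s ws m = D) :
    e.kv w T / 2 ^ (w * P s m) % 2 ^ w = coeff m (e.ev (xs s)) := by
  classical
  have hws : ws.length = 13 := by rw [← hV.1, hs]
  have hhom := ev_hom Tw s ws hs hws hTw e D h
  have hk : eval (fun i : Fin s.length => 2 ^ (w * s.get i)) (e.ev (xs s)) = e.kv w T := by
    rw [← ev_pow w T s hs hT e]
    have := map_ev (eval (fun i : Fin s.length => 2 ^ (w * s.get i))) (xs s) e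
    rw [this]
    refine ev_congr (fun d hd => ?_) e
    unfold xs
    rw [dif_pos (by omega), eval_X, List.getD_eq_getElem _ _ (by omega)]
    rfl
  have h1' : eval (fun _ => 1) (e.ev (xs s)) = e.nrm := by
    rw [← ev_one e]
    have := map_ev (eval (fun _ : Fin s.length => (1 : ℕ))) (xs s) e
    rw [this]
    refine ev_congr (fun d hd => ?_) e
    unfold xs
    rw [dif_pos (by omega), eval_X]
  set F := e.ev (xs s) with hF
  have hval : e.kv w T = ∑ d ∈ insert m F.support, coeff d F * 2 ^ (w * P s d) := by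
    rw [← hk, eval_eq']
    have : ∑ d ∈ F.support, coeff d F * ∏ i, (fun i => 2 ^ (w * s.get i)) i ^ d i =
        ∑ d ∈ F.support, coeff d F * 2 ^ (w * P s d) := by
      refine Finset.sum_congr rfl fun d _ => ?_
      congr 1
      unfold P
      rw [Finset.mul_sum, ← Finset.prod_pow_eq_pow_sum]
      refine Finset.prod_congr rfl fun i _ => ?_
      rw [← pow_mul]
      congr 1
      ring
    rw [this]
    refine Finset.sum_subset (Finset.subset_insert _ _) fun d _ hd => ?_
    rw [notMem_support_iff.1 hd, Nat.zero_mul]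
  have hdeg : ∀ d ∈ insert m F.support, wt s ws d = D := by
    intro d hd
    rcases Finset.mem_insert.1 hd with rfl | hd
    · exact hm
    · exact hhom (mem_support_iff.1 hd)
  rw [hval]
  refine digit_sum (insert m F.support) (fun d => coeff d F) (P s) w ?_ ?_ (Finset.mem_insert_self _ _)
  · intro a ha b hb hab
    exact P_inj' hV (hdeg a ha) (hdeg b hb) hab
  · have h1 : eval (fun _ => 1) F = ∑ d ∈ F.support, coeff d F := by
      rw [eval_eq]
      refine Finset.sum_congr rfl fun d _ => ?_
      simp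
    have h2 : ∑ d ∈ insert m F.support, coeff d F = ∑ d ∈ F.support, coeff d F := by
      symm
      refine Finset.sum_subset (Finset.subset_insert _ _) fun d _ hd => ?_
      exact notMem_support_iff.1 hd
    rw [h2, ← h1, h1']
    exact hn

/-- check of `e₁ = e₂` -/
noncomputable def eChk (w T Tw D : ℕ) (e₁ e₂ : E) : Bool :=
  and (e₁.hom Tw D) (and (e₂.hom Tw D) (and (Nat.blt e₁.nrm (Nat.pow (nat_lit 2) w)) (and (Nat.blt e₂.nrm (Nat.pow (nat_lit 2) w))
      (Nat.beq (e₁.kv w T) (e₂.kv w T)))))

theorem eChk_ev (s ws : List ℕ) (T Tw : ℕ) (w D : ℕ) (hV : InjOK s ws D) (hs : s.length = 13)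
    (hT : TabOK T s) (hTw : TabOK Tw ws) (e₁ e₂ : E) (h : eChk w T Tw D e₁ e₂ = true)
    {A : Type*} [CommSemiring A] (x : ℕ → A) : e₁.ev x = e₂.ev x := by
  have hws : ws.length = 13 := by rw [← hV.1, hs]
  unfold eChk at h
  simp only [Bool.and_eq_true] at h
  obtain ⟨h2, h3, h4, h5, h6⟩ := h
  have h4 : e₁.nrm < 2 ^ w := by simpa [Nat.blt_eq] using h4
  have h5 : e₂.nrm < 2 ^ w := by simpa [Nat.blt_eq] using h5
  have h6 : e₁.kv w T = e₂.kv w T := Nat.eq_of_beq_eq_true h6
  have key : e₁.ev (xs s) = e₂.ev (xs s) := by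
    ext m
    by_cases hm : wt s ws m = D
    · rw [← digit s ws T Tw w D hV hs hT hTw e₁ h2 h4 m hm, ← digit s ws T Tw w D hV hs hT hTw e₂ h3 h5 m hm, h6]
    · rw [(ev_hom Tw s ws hs hws hTw e₁ D h2).coeff_eq_zero m hm, (ev_hom Tw s ws hs hws hTw e₂ D h3).coeff_eq_zero m hm]
  have h7 : ∀ e : E, eval₂Hom (Nat.castRingHom A) (fun i : Fin s.length => x i) (e.ev (xs s)) = e.ev x := by
    intro e
    rw [map_ev]
    refine ev_congr (fun d hd => ?_) e
    unfold xs
    rw [dif_pos (by omega)]
    exact eval₂_X _ _ _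
  rw [← h7 e₁, ← h7 e₂, key]

end Pool.Agent.LibMV18
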