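import Pool.Agent.LibMV18.Base

set_option autoImplicit false

namespace Pool.Agent.LibMV18

open MvPolynomial Pool.Agent.Mond61

/-- weight of the first term -/
def wOf (Tw X : ℕ) : ℕ := tsum Tw (tm X (nat_lit 0))

/-- product of two packed polynomials -/
def mulE (Tw X Y : ℕ) : E :=
  cond (Nat.beq (tn X) (nat_lit 0)) (E.t (nat_lit 0)) (cond (Nat.beq (tn Y) (nat_lit 0)) (E.t (nat_lit 0))
    (E.mul (wOf Tw X) (E.t X) (E.t Y)))

/-- the part of sign `b` of the product `(X₁ - X₂) (Y₁ - Y₂)` -/
def prt (Tw : ℕ) (b : Bool) (X Y : ℕ × ℕ) : E :=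
  cond b (E.add (mulE Tw X.1 Y.2) (mulE Tw X.2 Y.1)) (E.add (mulE Tw X.1 Y.1) (mulE Tw X.2 Y.2))

/-- the part of sign `b` of `∑ ± X Y` -/
def side (Tw : ℕ) (b : Bool) : List (Bool × (ℕ × ℕ) × (ℕ × ℕ)) → E
  | [] => E.t (nat_lit 0)
  | m :: L => E.add (prt Tw (xor b m.1) m.2.1 m.2.2) (side Tw b L)

/-- check of `∑ ± X Y = 0` (homogeneous of weight `D`) -/
noncomputable def zchk (w T Tw D : ℕ) (L : List (Bool × (ℕ × ℕ) × (ℕ × ℕ))) : Bool :=
  eChk w T Tw D (side Tw false L) (side Tw true L)

/-- value of a signed packed polynomial -/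
def sv {A : Type*} [CommRing A] (x : ℕ → A) (X : ℕ × ℕ) : A := pv x X.1 - pv x X.2

/-- the sign -/
def sg {A : Type*} [CommRing A] (b : Bool) : A := cond b (-1) 1

section
variable {A : Type*} [CommRing A] (x : ℕ → A)

theorem pv_zero_terms (X : ℕ) (h : tn X = 0) : pv x X = 0 := by
  unfold pv
  rw [h]
  rfl

theorem ev_mulE (Tw X Y : ℕ) : (mulE Tw X Y).ev x = pv x X * pv x Y := by
  unfold mulE
  cases hX : Nat.beq (tn X) 0 with
  | true =>
    have : tn X = 0 := Nat.eq_of_beq_eq_true hX
    rw [pv_zero_terms x X this, zero_mul]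
    exact pv_zero_terms x 0 rfl
  | false =>
    cases hY : Nat.beq (tn Y) 0 with
    | true =>
      have : tn Y = 0 := Nat.eq_of_beq_eq_true hY
      rw [pv_zero_terms x Y this, mul_zero]
      exact pv_zero_terms x 0 rfl
    | false => rfl

theorem ev_prt (Tw : ℕ) (X Y : ℕ × ℕ) :
    (prt Tw false X Y).ev x - (prt Tw true X Y).ev x = sv x X * sv x Y := by
  change ((mulE Tw X.1 Y.1).ev x + (mulE Tw X.2 Y.2).ev x) - ((mulE Tw X.1 Y.2).ev x + (mulE Tw X.2 Y.1).ev x) = _
  rw [ev_mulE, ev_mulE, ev_mulE, ev_mulE]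
  unfold sv
  ring

theorem ev_side (Tw : ℕ) (L : List (Bool × (ℕ × ℕ) × (ℕ × ℕ))) :
    (side Tw false L).ev x - (side Tw true L).ev x = (L.map fun m => sg m.1 * (sv x m.2.1 * sv x m.2.2)).sum := by
  induction L with
  | nil => simp [side]
  | cons m L ih =>
    change ((prt Tw (xor false m.1) m.2.1 m.2.2).ev x + (side Tw false L).ev x) -
      ((prt Tw (xor true m.1) m.2.1 m.2.2).ev x + (side Tw true L).ev x) = _
    rw [List.map_cons, List.sum_cons, ← ih, ← ev_prt x Tw]
    cases m.1
    · change ((prt Tw false m.2.1 m.2.2).ev x + (side Tw false L).ev x) -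
        ((prt Tw true m.2.1 m.2.2).ev x + (side Tw true L).ev x) = 1 * _ + _
      ring
    · change ((prt Tw true m.2.1 m.2.2).ev x + (side Tw false L).ev x) -
        ((prt Tw false m.2.1 m.2.2).ev x + (side Tw true L).ev x) = (-1) * _ + _
      ring

theorem zchk_spec (s ws : List ℕ) (T Tw : ℕ) (w D : ℕ) (hV : InjOK s ws D) (hs : s.length = 13)
    (hT : TabOK T s) (hTw : TabOK Tw ws) (L : List (Bool × (ℕ × ℕ) × (ℕ × ℕ))) (h : zchk w T Tw D L = true) :
    (L.map fun m => sg m.1 * (sv x m.2.1 * sv x m.2.2)).sum = 0 := by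
  rw [← ev_side x Tw L, sub_eq_zero]
  exact eChk_ev s ws T Tw w D hV hs hT hTw _ _ h x

end

/-- list of the term codes -/
def tl (N : ℕ) : List ℕ := (List.range (tn N)).map (tm N)

/-- replace digit `j` by 15 if it is `t` -/
def dj (t c j : ℕ) : List ℕ := cond (Nat.beq (td c j) t) [Nat.add c (Nat.mul (Nat.sub 15 t) (Nat.pow 16 j))] []

/-- terms of `∂_t` of a term -/
def dt (t c : ℕ) : List ℕ := dj t c 0 ++ (dj t c 1 ++ (dj t c 2 ++ (dj t c 3 ++ dj t c 4)))

/-- terms of `∂_t` -/
def dl (t : ℕ) (l : List ℕ) : List ℕ := l.flatMap (dt t)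

/-- value of a list of term codes -/
def lv {A : Type*} [CommSemiring A] (x : ℕ → A) (l : List ℕ) : A := (l.map (tv x)).sum

theorem pv_eq_lv {A : Type*} [CommSemiring A] (x : ℕ → A) (N : ℕ) : pv x N = lv x (tl N) := by
  unfold pv lv tl
  rw [List.map_map, Finset.sum_range]
  rw [← List.sum_ofFn]
  congr 1
  rw [List.ofFn_eq_map, ← List.map_coe_finRange_eq_range, List.map_map]
  rfl

theorem lv_append {A : Type*} [CommSemiring A] (x : ℕ → A) (l m : List ℕ) : lv x (l ++ m) = lv x l + lv x m := by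
  unfold lv
  rw [List.map_append, List.sum_append]

theorem lv_nil {A : Type*} [CommSemiring A] (x : ℕ → A) : lv x [] = 0 := rfl

theorem lv_cons {A : Type*} [CommSemiring A] (x : ℕ → A) (c : ℕ) (l : List ℕ) : lv x (c :: l) = tv x c + lv x l := rfl

section
variable {A : Type*} [CommRing A] (x : ℕ → A) (D : Derivation ℤ A A)

/-- changing a digit -/
theorem td_dj (t c j : ℕ) (ht : t < 13) (hj : td c j = t) (i : ℕ) :
    td (c + (15 - t) * 16 ^ j) i = if i = j then 15 else td c i := by
  have h16 : ∀ c i, td c i = c / 16 ^ i % 16 := by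
    intro c i
    change (c >>> (4 * i)) % 16 = _
    rw [Nat.shiftRight_eq_div_pow, pow_mul]
    norm_num
  rw [h16] at hj
  rw [h16, h16]
  have hp : 0 < 16 ^ j := by positivity
  obtain ⟨q, r, hr, hc⟩ : ∃ q r, r < 16 ^ j ∧ c = 16 ^ j * (16 * q + t) + r := by
    refine ⟨c / 16 ^ j / 16, c % 16 ^ j, Nat.mod_lt _ hp, ?_⟩
    have h1 := Nat.div_add_mod c (16 ^ j)
    have h2 := Nat.div_add_mod (c / 16 ^ j) 16
    rw [hj] at h2
    rw [h2]
    exact h1.symm
  have e : c + (15 - t) * 16 ^ j = 16 ^ j * (16 * q + 15) + r := by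
    rw [hc]
    have : 15 = t + (15 - t) := by omega
    calc 16 ^ j * (16 * q + t) + r + (15 - t) * 16 ^ j = 16 ^ j * (16 * q + (t + (15 - t))) + r := by ring
      _ = _ := by rw [← this]
  rw [e, hc]
  rcases lt_trichotomy i j with h | h | h
  · rw [if_neg (by omega)]
    obtain ⟨k, rfl⟩ : ∃ k, j = i + 1 + k := ⟨j - (i + 1), by omega⟩
    have h3 : ∀ a, (16 ^ (i + 1 + k) * a + r) / 16 ^ i % 16 = r / 16 ^ i % 16 := by
      intro a
      have : 16 ^ (i + 1 + k) * a + r = r + 16 ^ i * (16 * (16 ^ k * a)) := by ring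
      rw [this, Nat.add_mul_div_left _ _ (by positivity), Nat.add_mul_mod_self_left]
    rw [h3, h3]
  · subst h
    rw [if_pos rfl]
    have h3 : (16 ^ i * (16 * q + 15) + r) / 16 ^ i = 16 * q + 15 := by
      rw [add_comm, Nat.add_mul_div_left _ _ hp, Nat.div_eq_of_lt hr, zero_add]
    rw [h3]
    omega
  · rw [if_neg (by omega)]
    obtain ⟨k, rfl⟩ : ∃ k, i = j + 1 + k := ⟨i - (j + 1), by omega⟩
    have h3 : ∀ a < 16, (16 ^ j * (16 * q + a) + r) / 16 ^ (j + 1 + k) = q / 16 ^ k := by
      intro a ha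
      rw [pow_add, pow_succ, ← Nat.div_div_eq_div_mul, ← Nat.div_div_eq_div_mul]
      congr 1
      rw [add_comm (16 ^ j * _) r, Nat.add_mul_div_left _ _ hp, Nat.div_eq_of_lt hr, zero_add]
      omega
    rw [h3 _ (by norm_num), h3 _ (by omega)]

theorem tk_dj (t c j : ℕ) (ht : t < 13) (hj : td c j = t) (hj5 : j < 5) : tk (c + (15 - t) * 16 ^ j) = tk c := by
  have h16 : ∀ c i, td c i = c / 16 ^ i % 16 := by
    intro c i
    change (c >>> (4 * i)) % 16 = _
    rw [Nat.shiftRight_eq_div_pow, pow_mul]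
    norm_num
  have hk : ∀ c, tk c = c / 1048576 := by
    intro c
    change c >>> 20 = _
    rw [Nat.shiftRight_eq_div_pow]
  rw [h16] at hj
  rw [hk, hk]
  interval_cases j <;> norm_num at hj ⊢ <;> omega

theorem D_tv (hD : ∀ n : ℕ, D (n : A) = 0) (c : ℕ) :
    D (tv x c) = ∑ t ∈ Finset.range 13, lv x (dt t c) * D (x t) := by
  have hg : ∀ d, D (gx x d) = if d < 13 then D (x d) else 0 := by
    intro d
    unfold gx
    split
    · rfl
    · have := hD 1
      rw [Nat.cast_one] at this
      exact this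
  have key : ∀ j < 5, ∀ t < 13, lv x (dj t c j) = if td c j = t then
      (tk c : A) * ((if 0 = j then 1 else gx x (td c 0)) * (if 1 = j then 1 else gx x (td c 1)) *
        (if 2 = j then 1 else gx x (td c 2)) * (if 3 = j then 1 else gx x (td c 3)) * (if 4 = j then 1 else gx x (td c 4))) else 0 := by
    intro j hj t ht
    unfold dj
    by_cases h : td c j = t
    · rw [if_pos h]
      have hb : Nat.beq (td c j) t = true := by rw [h]; exact Nat.beq_refl t
      rw [hb]
      change tv x (c + (15 - t) * 16 ^ j) + 0 = _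
      rw [add_zero]
      unfold tv
      rw [tk_dj t c j ht h hj]
      simp only [td_dj t c j ht h]
      congr 1
      have h15 : gx x 15 = 1 := by unfold gx; simp
      have aux : ∀ i, gx x (if i = j then 15 else td c i) = if i = j then 1 else gx x (td c i) := by
        intro i
        split
        · exact h15
        · rfl
      simp only [aux]
    · rw [if_neg h]
      have hb : Nat.beq (td c j) t = false := by
        cases h' : Nat.beq (td c j) t with
        | false => rfl
        | true => exact absurd (Nat.eq_of_beq_eq_true h') h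
      rw [hb]
      rfl
  have key2 : ∀ j < 5, ∑ t ∈ Finset.range 13, lv x (dj t c j) * D (x t) =
      (tk c : A) * ((if 0 = j then 1 else gx x (td c 0)) * (if 1 = j then 1 else gx x (td c 1)) *
        (if 2 = j then 1 else gx x (td c 2)) * (if 3 = j then 1 else gx x (td c 3)) * (if 4 = j then 1 else gx x (td c 4))) *
        D (gx x (td c j)) := by
    intro j hj
    rw [hg]
    by_cases hd : td c j < 13
    · rw [if_pos hd, Finset.sum_eq_single (td c j)]
      · rw [key j hj _ hd, if_pos rfl]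
      · intro t ht hne
        rw [key j hj t (Finset.mem_range.1 ht), if_neg (Ne.symm hne), zero_mul]
      · intro h
        exact absurd (Finset.mem_range.2 hd) h
    · rw [if_neg hd, mul_zero]
      refine Finset.sum_eq_zero fun t ht => ?_
      have ht := Finset.mem_range.1 ht
      rw [key j hj t ht, if_neg (by omega), zero_mul]
  have e : ∀ t, lv x (dt t c) * D (x t) = lv x (dj t c 0) * D (x t) + lv x (dj t c 1) * D (x t) +
      lv x (dj t c 2) * D (x t) + lv x (dj t c 3) * D (x t) + lv x (dj t c 4) * D (x t) := by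
    intro t
    unfold dt
    rw [lv_append, lv_append, lv_append, lv_append]
    ring
  simp only [e, Finset.sum_add_distrib]
  rw [key2 0 (by norm_num), key2 1 (by norm_num), key2 2 (by norm_num), key2 3 (by norm_num), key2 4 (by norm_num)]
  unfold tv
  simp only [Derivation.leibniz, smul_eq_mul, hD]
  norm_num
  ring

theorem D_lv (hD : ∀ n : ℕ, D (n : A) = 0) (l : List ℕ) :
    D (lv x l) = ∑ t ∈ Finset.range 13, lv x (dl t l) * D (x t) := by
  induction l with
  | nil =>
    rw [lv_nil, map_zero]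
    symm
    refine Finset.sum_eq_zero fun t _ => ?_
    change lv x [] * _ = 0
    rw [lv_nil, zero_mul]
  | cons c l ih =>
    rw [lv_cons, map_add, ih, D_tv x D hD, ← Finset.sum_add_distrib]
    refine Finset.sum_congr rfl fun t _ => ?_
    have : dl t (c :: l) = dt t c ++ dl t l := rfl
    rw [this, lv_append]
    ring

end

end Pool.Agent.LibMV18
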