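import Pool.Agent.LibMV18.Ctx
import Pool.Agent.LibMV18.TabM

set_option autoImplicit false

namespace Pool.Agent.LibMV18

open MvPolynomial Pool.Agent.Mond61

/-- the constant `1` -/
def one : ℕ × ℕ := (0x1fffff001, 0)

/-- the variable `Y4` -/
def y4 : ℕ × ℕ := (0x1ffffc001, 0)

/-- half weights of the basis `1, z, y, yz, x, xz, xy, xyz` -/
def gw : List ℕ := [0, 1, 1, 2, 1, 2, 2, 3]

/-- `D (Λ a b) + (Λ A) a b - (C Λ) a b`, `Λ = Y4 - M4` -/
def idL (et : List (ℕ × ℕ)) (A C : List (List (ℕ × ℕ))) (a b : ℕ) : List (Bool × (ℕ × ℕ) × (ℕ × ℕ)) :=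
  (if a = b then [(false, et.getD 12 (0, 0), one)] else []) ++
  ((List.range 13).map (fun t => (true, et.getD t (0, 0), dent dm4 a b t)) ++
  ((false, y4, ent A a b) :: ((List.range 8).map (fun k => (true, ent m4 a k, ent A k b)) ++
  ((true, y4, ent C a b) :: (List.range 8).map (fun k => (false, ent C a k, ent m4 k b))))))

/-- `alpha - tr C + tr A` -/
def trL (al : ℕ × ℕ) (A C : List (List (ℕ × ℕ))) : List (Bool × (ℕ × ℕ) × (ℕ × ℕ)) :=
  (false, one, al) :: ((List.range 8).map (fun a => (true, one, ent C a a)) ++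
    (List.range 8).map (fun a => (false, one, ent A a a)))

/-- check in the context for weight `D` -/
noncomputable def zchk' (D : ℕ) (L : List (Bool × (ℕ × ℕ) × (ℕ × ℕ))) : Bool :=
  cond (Nat.ble D 5) (zchk 15 T5 Tw D L) (cond (Nat.beq D 6) (zchk 15 T6 Tw 6 L)
    (cond (Nat.beq D 7) (zchk 15 T7 Tw 7 L) false))

/-- all checks for one field of weight `wt` -/
noncomputable def fldChk (wt : ℕ) (et : List (ℕ × ℕ)) (al : ℕ × ℕ) (A C : List (List (ℕ × ℕ))) : Bool :=
  and (zchk' wt (trL al A C)) ((List.range 8).all fun a => (List.range 8).all fun b =>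
    zchk' (2 + gw.getD a 0 + wt - gw.getD b 0) (idL et A C a b))

theorem zchk'_spec {A : Type*} [CommRing A] (x : ℕ → A) (D : ℕ) (L : List (Bool × (ℕ × ℕ) × (ℕ × ℕ)))
    (h : zchk' D L = true) : (L.map fun m => sg m.1 * (sv x m.2.1 * sv x m.2.2)).sum = 0 := by
  unfold zchk' at h
  cases h5 : Nat.ble D 5 with
  | true =>
    rw [h5] at h
    change zchk 15 T5 Tw D L = true at h
    have hD : D ≤ 5 := Nat.le_of_ble_eq_true h5
    interval_cases D
    · exact zchk_spec x s5 wl T5 Tw 15 0 inj5_0 rfl T5_ok Tw_ok L h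
    · exact zchk_spec x s5 wl T5 Tw 15 1 inj5_1 rfl T5_ok Tw_ok L h
    · exact zchk_spec x s5 wl T5 Tw 15 2 inj5_2 rfl T5_ok Tw_ok L h
    · exact zchk_spec x s5 wl T5 Tw 15 3 inj5_3 rfl T5_ok Tw_ok L h
    · exact zchk_spec x s5 wl T5 Tw 15 4 inj5_4 rfl T5_ok Tw_ok L h
    · exact zchk_spec x s5 wl T5 Tw 15 5 inj5_5 rfl T5_ok Tw_ok L h
  | false =>
    rw [h5] at h
    change (cond (Nat.beq D 6) (zchk 15 T6 Tw 6 L) (cond (Nat.beq D 7) (zchk 15 T7 Tw 7 L) false)) = true at h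
    cases h6 : Nat.beq D 6 with
    | true =>
      rw [h6] at h
      exact zchk_spec x s6 wl T6 Tw 15 6 inj6_6 rfl T6_ok Tw_ok L h
    | false =>
      rw [h6] at h
      change (cond (Nat.beq D 7) (zchk 15 T7 Tw 7 L) false) = true at h
      cases h7 : Nat.beq D 7 with
      | true =>
        rw [h7] at h
        exact zchk_spec x s7 wl T7 Tw 15 7 inj7_7 rfl T7_ok Tw_ok L h
      | false =>
        rw [h7] at h
        exact absurd h (by simp)

end Pool.Agent.LibMV18
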