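import Pool.Agent.LibMV18.Chk

set_option autoImplicit false

/-! MP_ed98ad_ag: the check of one field, split into small pieces (less memory). -/

namespace Pool.Agent.LibMV18

/-- check of the entry `(a, b)` -/
noncomputable def entChk (wt : ℕ) (et : List (ℕ × ℕ)) (A C : List (List (ℕ × ℕ))) (a b : ℕ) : Bool :=
  zchk' (2 + gw.getD a 0 + wt - gw.getD b 0) (idL et A C a b)

/-- check of the row `a` -/
noncomputable def rowChk (wt : ℕ) (et : List (ℕ × ℕ)) (A C : List (List (ℕ × ℕ))) (a : ℕ) : Bool :=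
  (List.range 8).all fun b => entChk wt et A C a b

theorem all8 (f : ℕ → Bool) (h0 : f 0 = true) (h1 : f 1 = true) (h2 : f 2 = true) (h3 : f 3 = true)
    (h4 : f 4 = true) (h5 : f 5 = true) (h6 : f 6 = true) (h7 : f 7 = true) : (List.range 8).all f = true := by
  rw [List.all_eq_true]
  intro i hi
  have hi' : i < 8 := List.mem_range.1 hi
  interval_cases i <;> assumption

theorem row_of {wt : ℕ} {et : List (ℕ × ℕ)} {A C : List (List (ℕ × ℕ))} (a : ℕ)
    (h0 : entChk wt et A C a 0 = true) (h1 : entChk wt et A C a 1 = true) (h2 : entChk wt et A C a 2 = true)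
    (h3 : entChk wt et A C a 3 = true) (h4 : entChk wt et A C a 4 = true) (h5 : entChk wt et A C a 5 = true)
    (h6 : entChk wt et A C a 6 = true) (h7 : entChk wt et A C a 7 = true) : rowChk wt et A C a = true :=
  all8 (fun b => entChk wt et A C a b) h0 h1 h2 h3 h4 h5 h6 h7

theorem fld_of {wt : ℕ} {et : List (ℕ × ℕ)} {al : ℕ × ℕ} {A C : List (List (ℕ × ℕ))}
    (ht : zchk' wt (trL al A C) = true)
    (h0 : rowChk wt et A C 0 = true) (h1 : rowChk wt et A C 1 = true) (h2 : rowChk wt et A C 2 = true)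
    (h3 : rowChk wt et A C 3 = true) (h4 : rowChk wt et A C 4 = true) (h5 : rowChk wt et A C 5 = true)
    (h6 : rowChk wt et A C 6 = true) (h7 : rowChk wt et A C 7 = true) : fldChk wt et al A C = true := by
  have h := all8 (fun a => rowChk wt et A C a) h0 h1 h2 h3 h4 h5 h6 h7
  unfold fldChk
  rw [ht, Bool.true_and]
  exact h

end Pool.Agent.LibMV18
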