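import Pool.Agent.LibMV18.Base2

set_option autoImplicit false

namespace Pool.Agent.LibMV18

open Pool.Agent.Mond61

/-- weights: `v1 .. v9` have weight 1, `Y1 .. Y4` weight 2 -/
def wl : List ℕ := [1, 1, 1, 1, 1, 1, 1, 1, 1, 2, 2, 2, 2]
def Tw : ℕ := 0x2000000020000000200000002000000010000000100000001000000010000000100000001000000010000000100000001
theorem Tw_ok : TabOK Tw wl := by
  unfold TabOK
  decide +kernel
def s5 : List ℕ := [0, 1, 6, 31, 108, 366, 926, 2286, 5733, 7306, 9446, 9984, 13244]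
def p5 : List (ℕ × ℕ) := [(0, 1), (1, 1), (6, 1), (31, 1), (108, 1), (366, 1), (926, 1), (2286, 1), (5733, 1), (7306, 2), (9446, 2), (9984, 2), (13244, 2)]
def T5 : ℕ := 0x33bc00002700000024e600001c8a00001665000008ee0000039e0000016e0000006c0000001f000000060000000100000000
theorem T5_ok : TabOK T5 s5 := by
  unfold TabOK
  decide +kernel
theorem inj5_0 : InjOK s5 wl 0 :=
  injChk_spec 2 1 p5 0 (by decide) (by decide +kernel)
theorem inj5_1 : InjOK s5 wl 1 :=
  injChk_spec 4 5734 p5 1 (by decide) (by decide +kernel)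
theorem inj5_2 : InjOK s5 wl 2 :=
  injChk_spec 6 13245 p5 2 (by decide) (by decide +kernel)
theorem inj5_3 : InjOK s5 wl 3 :=
  injChk_spec 8 18978 p5 3 (by decide) (by decide +kernel)
theorem inj5_4 : InjOK s5 wl 4 :=
  injChk_spec 10 26489 p5 4 (by decide) (by decide +kernel)
theorem inj5_5 : InjOK s5 wl 5 :=
  injChk_spec 11 32222 p5 5 (by decide) (by decide +kernel)
def s6 : List ℕ := [0, 1, 7, 43, 154, 668, 2214, 6876, 16864, 23173, 41041, 51846, 60715]
def p6 : List (ℕ × ℕ) := [(0, 1), (1, 1), (7, 1), (43, 1), (154, 1), (668, 1), (2214, 1), (6876, 1), (16864, 1), (23173, 2), (41041, 2), (51846, 2), (60715, 2)]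
def T6 : ℕ := 0xed2b0000ca860000a05100005a85000041e000001adc000008a60000029c0000009a0000002b000000070000000100000000
theorem T6_ok : TabOK T6 s6 := by
  unfold TabOK
  decide +kernel
theorem inj6_6 : InjOK s6 wl 6 :=
  injChk_spec 13 182146 p6 6 (by decide) (by decide +kernel)
def s7 : List ℕ := [0, 1, 8, 57, 256, 1153, 4181, 14180, 47381, 67894, 124592, 159616, 216696]
def p7 : List (ℕ × ℕ) := [(0, 1), (1, 1), (8, 1), (57, 1), (256, 1), (1153, 1), (4181, 1), (14180, 1), (47381, 1), (67894, 2), (124592, 2), (159616, 2), (216696, 2)]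
def T7 : ℕ := 0x34e7800026f800001e6b0000109360000b9150000376400001055000004810000010000000039000000080000000100000000
theorem T7_ok : TabOK T7 s7 := by
  unfold TabOK
  decide +kernel
theorem inj7_7 : InjOK s7 wl 7 :=
  injChk_spec 14 697470 p7 7 (by decide) (by decide +kernel)

end Pool.Agent.LibMV18
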