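import Pool.Agent.LibMV18.D14

set_option autoImplicit false

namespace Pool.Agent.LibMV18

theorem e14_6_0 : entChk 2 et14 mA14 mC14 6 0 = true := by
  decide +kernel
theorem e14_6_1 : entChk 2 et14 mA14 mC14 6 1 = true := by
  decide +kernel
theorem e14_6_2 : entChk 2 et14 mA14 mC14 6 2 = true := by
  decide +kernel
theorem e14_6_3 : entChk 2 et14 mA14 mC14 6 3 = true := by
  decide +kernel
theorem e14_6_4 : entChk 2 et14 mA14 mC14 6 4 = true := by
  decide +kernel
theorem e14_6_5 : entChk 2 et14 mA14 mC14 6 5 = true := by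
  decide +kernel
theorem e14_6_6 : entChk 2 et14 mA14 mC14 6 6 = true := by
  decide +kernel
theorem e14_6_7 : entChk 2 et14 mA14 mC14 6 7 = true := by
  decide +kernel
theorem r14_6 : rowChk 2 et14 mA14 mC14 6 = true :=
  row_of 6 e14_6_0 e14_6_1 e14_6_2 e14_6_3 e14_6_4 e14_6_5 e14_6_6 e14_6_7
theorem e14_7_1 : entChk 2 et14 mA14 mC14 7 1 = true := by
  decide +kernel
theorem e14_7_2 : entChk 2 et14 mA14 mC14 7 2 = true := by
  decide +kernel
theorem e14_7_3 : entChk 2 et14 mA14 mC14 7 3 = true := by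
  decide +kernel
theorem e14_7_4 : entChk 2 et14 mA14 mC14 7 4 = true := by
  decide +kernel
theorem e14_7_5 : entChk 2 et14 mA14 mC14 7 5 = true := by
  decide +kernel
theorem e14_7_6 : entChk 2 et14 mA14 mC14 7 6 = true := by
  decide +kernel
theorem e14_7_7 : entChk 2 et14 mA14 mC14 7 7 = true := by
  decide +kernel

end Pool.Agent.LibMV18
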