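import Pool.Agent.LibMV18.Ga14
import Pool.Agent.LibMV18.Gb14

set_option autoImplicit false

namespace Pool.Agent.LibMV18

theorem e14_7_0 : entChk 2 et14 mA14 mC14 7 0 = true := by
  decide +kernel
theorem r14_7 : rowChk 2 et14 mA14 mC14 7 = true :=
  row_of 7 e14_7_0 e14_7_1 e14_7_2 e14_7_3 e14_7_4 e14_7_5 e14_7_6 e14_7_7
theorem t14 : zchk' 2 (trL al14 mA14 mC14) = true := by
  decide +kernel

theorem chk14 : fldChk 2 et14 al14 mA14 mC14 = true :=
  fld_of t14 r14_0 r14_1 r14_2 r14_3 r14_4 r14_5 r14_6 r14_7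

end Pool.Agent.LibMV18
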