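import Pool.Agent.LibMV18.D15

set_option autoImplicit false

namespace Pool.Agent.LibMV18

theorem e15_0_0 : entChk 2 et15 mA15 mC15 0 0 = true := by
  decide +kernel
theorem e15_0_1 : entChk 2 et15 mA15 mC15 0 1 = true := by
  decide +kernel
theorem e15_0_2 : entChk 2 et15 mA15 mC15 0 2 = true := by
  decide +kernel
theorem e15_0_3 : entChk 2 et15 mA15 mC15 0 3 = true := by
  decide +kernel
theorem e15_0_4 : entChk 2 et15 mA15 mC15 0 4 = true := by
  decide +kernel
theorem e15_0_5 : entChk 2 et15 mA15 mC15 0 5 = true := by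
  decide +kernel
theorem e15_0_6 : entChk 2 et15 mA15 mC15 0 6 = true := by
  decide +kernel
theorem e15_0_7 : entChk 2 et15 mA15 mC15 0 7 = true := by
  decide +kernel
theorem r15_0 : rowChk 2 et15 mA15 mC15 0 = true :=
  row_of 0 e15_0_0 e15_0_1 e15_0_2 e15_0_3 e15_0_4 e15_0_5 e15_0_6 e15_0_7
theorem e15_1_0 : entChk 2 et15 mA15 mC15 1 0 = true := by
  decide +kernel
theorem e15_1_1 : entChk 2 et15 mA15 mC15 1 1 = true := by
  decide +kernel
theorem e15_1_2 : entChk 2 et15 mA15 mC15 1 2 = true := by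
  decide +kernel
theorem e15_1_3 : entChk 2 et15 mA15 mC15 1 3 = true := by
  decide +kernel
theorem e15_1_4 : entChk 2 et15 mA15 mC15 1 4 = true := by
  decide +kernel
theorem e15_1_5 : entChk 2 et15 mA15 mC15 1 5 = true := by
  decide +kernel
theorem e15_1_6 : entChk 2 et15 mA15 mC15 1 6 = true := by
  decide +kernel
theorem e15_1_7 : entChk 2 et15 mA15 mC15 1 7 = true := by
  decide +kernel
theorem r15_1 : rowChk 2 et15 mA15 mC15 1 = true :=
  row_of 1 e15_1_0 e15_1_1 e15_1_2 e15_1_3 e15_1_4 e15_1_5 e15_1_6 e15_1_7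
theorem e15_2_0 : entChk 2 et15 mA15 mC15 2 0 = true := by
  decide +kernel
theorem e15_2_1 : entChk 2 et15 mA15 mC15 2 1 = true := by
  decide +kernel
theorem e15_2_2 : entChk 2 et15 mA15 mC15 2 2 = true := by
  decide +kernel
theorem e15_2_3 : entChk 2 et15 mA15 mC15 2 3 = true := by
  decide +kernel
theorem e15_2_4 : entChk 2 et15 mA15 mC15 2 4 = true := by
  decide +kernel
theorem e15_2_5 : entChk 2 et15 mA15 mC15 2 5 = true := by
  decide +kernel
theorem e15_2_6 : entChk 2 et15 mA15 mC15 2 6 = true := by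
  decide +kernel
theorem e15_2_7 : entChk 2 et15 mA15 mC15 2 7 = true := by
  decide +kernel
theorem r15_2 : rowChk 2 et15 mA15 mC15 2 = true :=
  row_of 2 e15_2_0 e15_2_1 e15_2_2 e15_2_3 e15_2_4 e15_2_5 e15_2_6 e15_2_7
theorem e15_3_0 : entChk 2 et15 mA15 mC15 3 0 = true := by
  decide +kernel
theorem e15_3_1 : entChk 2 et15 mA15 mC15 3 1 = true := by
  decide +kernel
theorem e15_3_2 : entChk 2 et15 mA15 mC15 3 2 = true := by
  decide +kernel
theorem e15_3_3 : entChk 2 et15 mA15 mC15 3 3 = true := by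
  decide +kernel
theorem e15_3_4 : entChk 2 et15 mA15 mC15 3 4 = true := by
  decide +kernel
theorem e15_3_5 : entChk 2 et15 mA15 mC15 3 5 = true := by
  decide +kernel
theorem e15_3_6 : entChk 2 et15 mA15 mC15 3 6 = true := by
  decide +kernel
theorem e15_3_7 : entChk 2 et15 mA15 mC15 3 7 = true := by
  decide +kernel
theorem r15_3 : rowChk 2 et15 mA15 mC15 3 = true :=
  row_of 3 e15_3_0 e15_3_1 e15_3_2 e15_3_3 e15_3_4 e15_3_5 e15_3_6 e15_3_7
theorem e15_4_0 : entChk 2 et15 mA15 mC15 4 0 = true := by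
  decide +kernel
theorem e15_4_1 : entChk 2 et15 mA15 mC15 4 1 = true := by
  decide +kernel
theorem e15_4_2 : entChk 2 et15 mA15 mC15 4 2 = true := by
  decide +kernel
theorem e15_4_3 : entChk 2 et15 mA15 mC15 4 3 = true := by
  decide +kernel
theorem e15_4_4 : entChk 2 et15 mA15 mC15 4 4 = true := by
  decide +kernel
theorem e15_4_5 : entChk 2 et15 mA15 mC15 4 5 = true := by
  decide +kernel
theorem e15_4_6 : entChk 2 et15 mA15 mC15 4 6 = true := by
  decide +kernel
theorem e15_4_7 : entChk 2 et15 mA15 mC15 4 7 = true := by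
  decide +kernel
theorem r15_4 : rowChk 2 et15 mA15 mC15 4 = true :=
  row_of 4 e15_4_0 e15_4_1 e15_4_2 e15_4_3 e15_4_4 e15_4_5 e15_4_6 e15_4_7
theorem e15_5_0 : entChk 2 et15 mA15 mC15 5 0 = true := by
  decide +kernel
theorem e15_5_1 : entChk 2 et15 mA15 mC15 5 1 = true := by
  decide +kernel
theorem e15_5_2 : entChk 2 et15 mA15 mC15 5 2 = true := by
  decide +kernel
theorem e15_5_3 : entChk 2 et15 mA15 mC15 5 3 = true := by
  decide +kernel
theorem e15_5_4 : entChk 2 et15 mA15 mC15 5 4 = true := by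
  decide +kernel
theorem e15_5_5 : entChk 2 et15 mA15 mC15 5 5 = true := by
  decide +kernel
theorem e15_5_6 : entChk 2 et15 mA15 mC15 5 6 = true := by
  decide +kernel
theorem e15_5_7 : entChk 2 et15 mA15 mC15 5 7 = true := by
  decide +kernel
theorem r15_5 : rowChk 2 et15 mA15 mC15 5 = true :=
  row_of 5 e15_5_0 e15_5_1 e15_5_2 e15_5_3 e15_5_4 e15_5_5 e15_5_6 e15_5_7

end Pool.Agent.LibMV18
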