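import Pool.Agent.LibMV18.D17

set_option autoImplicit false

namespace Pool.Agent.LibMV18

theorem e17_0_0 : entChk 2 et17 mA17 mC17 0 0 = true := by
  decide +kernel
theorem e17_0_1 : entChk 2 et17 mA17 mC17 0 1 = true := by
  decide +kernel
theorem e17_0_2 : entChk 2 et17 mA17 mC17 0 2 = true := by
  decide +kernel
theorem e17_0_3 : entChk 2 et17 mA17 mC17 0 3 = true := by
  decide +kernel
theorem e17_0_4 : entChk 2 et17 mA17 mC17 0 4 = true := by
  decide +kernel
theorem e17_0_5 : entChk 2 et17 mA17 mC17 0 5 = true := by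
  decide +kernel
theorem e17_0_6 : entChk 2 et17 mA17 mC17 0 6 = true := by
  decide +kernel
theorem e17_0_7 : entChk 2 et17 mA17 mC17 0 7 = true := by
  decide +kernel
theorem r17_0 : rowChk 2 et17 mA17 mC17 0 = true :=
  row_of 0 e17_0_0 e17_0_1 e17_0_2 e17_0_3 e17_0_4 e17_0_5 e17_0_6 e17_0_7
theorem e17_1_0 : entChk 2 et17 mA17 mC17 1 0 = true := by
  decide +kernel
theorem e17_1_1 : entChk 2 et17 mA17 mC17 1 1 = true := by
  decide +kernel
theorem e17_1_2 : entChk 2 et17 mA17 mC17 1 2 = true := by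
  decide +kernel
theorem e17_1_3 : entChk 2 et17 mA17 mC17 1 3 = true := by
  decide +kernel
theorem e17_1_4 : entChk 2 et17 mA17 mC17 1 4 = true := by
  decide +kernel
theorem e17_1_5 : entChk 2 et17 mA17 mC17 1 5 = true := by
  decide +kernel
theorem e17_1_6 : entChk 2 et17 mA17 mC17 1 6 = true := by
  decide +kernel
theorem e17_1_7 : entChk 2 et17 mA17 mC17 1 7 = true := by
  decide +kernel
theorem r17_1 : rowChk 2 et17 mA17 mC17 1 = true :=
  row_of 1 e17_1_0 e17_1_1 e17_1_2 e17_1_3 e17_1_4 e17_1_5 e17_1_6 e17_1_7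
theorem e17_2_0 : entChk 2 et17 mA17 mC17 2 0 = true := by
  decide +kernel
theorem e17_2_1 : entChk 2 et17 mA17 mC17 2 1 = true := by
  decide +kernel
theorem e17_2_2 : entChk 2 et17 mA17 mC17 2 2 = true := by
  decide +kernel
theorem e17_2_3 : entChk 2 et17 mA17 mC17 2 3 = true := by
  decide +kernel
theorem e17_2_4 : entChk 2 et17 mA17 mC17 2 4 = true := by
  decide +kernel
theorem e17_2_5 : entChk 2 et17 mA17 mC17 2 5 = true := by
  decide +kernel
theorem e17_2_6 : entChk 2 et17 mA17 mC17 2 6 = true := by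
  decide +kernel
theorem e17_2_7 : entChk 2 et17 mA17 mC17 2 7 = true := by
  decide +kernel
theorem r17_2 : rowChk 2 et17 mA17 mC17 2 = true :=
  row_of 2 e17_2_0 e17_2_1 e17_2_2 e17_2_3 e17_2_4 e17_2_5 e17_2_6 e17_2_7
theorem e17_3_0 : entChk 2 et17 mA17 mC17 3 0 = true := by
  decide +kernel
theorem e17_3_1 : entChk 2 et17 mA17 mC17 3 1 = true := by
  decide +kernel
theorem e17_3_2 : entChk 2 et17 mA17 mC17 3 2 = true := by
  decide +kernel
theorem e17_3_3 : entChk 2 et17 mA17 mC17 3 3 = true := by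
  decide +kernel
theorem e17_3_4 : entChk 2 et17 mA17 mC17 3 4 = true := by
  decide +kernel
theorem e17_3_5 : entChk 2 et17 mA17 mC17 3 5 = true := by
  decide +kernel
theorem e17_3_6 : entChk 2 et17 mA17 mC17 3 6 = true := by
  decide +kernel
theorem e17_3_7 : entChk 2 et17 mA17 mC17 3 7 = true := by
  decide +kernel
theorem r17_3 : rowChk 2 et17 mA17 mC17 3 = true :=
  row_of 3 e17_3_0 e17_3_1 e17_3_2 e17_3_3 e17_3_4 e17_3_5 e17_3_6 e17_3_7
theorem e17_4_0 : entChk 2 et17 mA17 mC17 4 0 = true := by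
  decide +kernel
theorem e17_4_1 : entChk 2 et17 mA17 mC17 4 1 = true := by
  decide +kernel
theorem e17_4_2 : entChk 2 et17 mA17 mC17 4 2 = true := by
  decide +kernel
theorem e17_4_3 : entChk 2 et17 mA17 mC17 4 3 = true := by
  decide +kernel
theorem e17_4_4 : entChk 2 et17 mA17 mC17 4 4 = true := by
  decide +kernel
theorem e17_4_5 : entChk 2 et17 mA17 mC17 4 5 = true := by
  decide +kernel
theorem e17_4_6 : entChk 2 et17 mA17 mC17 4 6 = true := by
  decide +kernel
theorem e17_4_7 : entChk 2 et17 mA17 mC17 4 7 = true := by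
  decide +kernel
theorem r17_4 : rowChk 2 et17 mA17 mC17 4 = true :=
  row_of 4 e17_4_0 e17_4_1 e17_4_2 e17_4_3 e17_4_4 e17_4_5 e17_4_6 e17_4_7
theorem e17_5_0 : entChk 2 et17 mA17 mC17 5 0 = true := by
  decide +kernel
theorem e17_5_1 : entChk 2 et17 mA17 mC17 5 1 = true := by
  decide +kernel
theorem e17_5_2 : entChk 2 et17 mA17 mC17 5 2 = true := by
  decide +kernel
theorem e17_5_3 : entChk 2 et17 mA17 mC17 5 3 = true := by
  decide +kernel
theorem e17_5_4 : entChk 2 et17 mA17 mC17 5 4 = true := by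
  decide +kernel
theorem e17_5_5 : entChk 2 et17 mA17 mC17 5 5 = true := by
  decide +kernel
theorem e17_5_6 : entChk 2 et17 mA17 mC17 5 6 = true := by
  decide +kernel
theorem e17_5_7 : entChk 2 et17 mA17 mC17 5 7 = true := by
  decide +kernel
theorem r17_5 : rowChk 2 et17 mA17 mC17 5 = true :=
  row_of 5 e17_5_0 e17_5_1 e17_5_2 e17_5_3 e17_5_4 e17_5_5 e17_5_6 e17_5_7

end Pool.Agent.LibMV18
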