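import Pool.Agent.LibMV18.D18

set_option autoImplicit false

namespace Pool.Agent.LibMV18

theorem e18_0_0 : entChk 2 et18 mA18 mC18 0 0 = true := by
  decide +kernel
theorem e18_0_1 : entChk 2 et18 mA18 mC18 0 1 = true := by
  decide +kernel
theorem e18_0_2 : entChk 2 et18 mA18 mC18 0 2 = true := by
  decide +kernel
theorem e18_0_3 : entChk 2 et18 mA18 mC18 0 3 = true := by
  decide +kernel
theorem e18_0_4 : entChk 2 et18 mA18 mC18 0 4 = true := by
  decide +kernel
theorem e18_0_5 : entChk 2 et18 mA18 mC18 0 5 = true := by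
  decide +kernel
theorem e18_0_6 : entChk 2 et18 mA18 mC18 0 6 = true := by
  decide +kernel
theorem e18_0_7 : entChk 2 et18 mA18 mC18 0 7 = true := by
  decide +kernel
theorem r18_0 : rowChk 2 et18 mA18 mC18 0 = true :=
  row_of 0 e18_0_0 e18_0_1 e18_0_2 e18_0_3 e18_0_4 e18_0_5 e18_0_6 e18_0_7
theorem e18_1_0 : entChk 2 et18 mA18 mC18 1 0 = true := by
  decide +kernel
theorem e18_1_1 : entChk 2 et18 mA18 mC18 1 1 = true := by
  decide +kernel
theorem e18_1_2 : entChk 2 et18 mA18 mC18 1 2 = true := by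
  decide +kernel
theorem e18_1_3 : entChk 2 et18 mA18 mC18 1 3 = true := by
  decide +kernel
theorem e18_1_4 : entChk 2 et18 mA18 mC18 1 4 = true := by
  decide +kernel
theorem e18_1_5 : entChk 2 et18 mA18 mC18 1 5 = true := by
  decide +kernel
theorem e18_1_6 : entChk 2 et18 mA18 mC18 1 6 = true := by
  decide +kernel
theorem e18_1_7 : entChk 2 et18 mA18 mC18 1 7 = true := by
  decide +kernel
theorem r18_1 : rowChk 2 et18 mA18 mC18 1 = true :=
  row_of 1 e18_1_0 e18_1_1 e18_1_2 e18_1_3 e18_1_4 e18_1_5 e18_1_6 e18_1_7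
theorem e18_2_0 : entChk 2 et18 mA18 mC18 2 0 = true := by
  decide +kernel
theorem e18_2_1 : entChk 2 et18 mA18 mC18 2 1 = true := by
  decide +kernel
theorem e18_2_2 : entChk 2 et18 mA18 mC18 2 2 = true := by
  decide +kernel
theorem e18_2_3 : entChk 2 et18 mA18 mC18 2 3 = true := by
  decide +kernel
theorem e18_2_4 : entChk 2 et18 mA18 mC18 2 4 = true := by
  decide +kernel
theorem e18_2_5 : entChk 2 et18 mA18 mC18 2 5 = true := by
  decide +kernel
theorem e18_2_6 : entChk 2 et18 mA18 mC18 2 6 = true := by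
  decide +kernel
theorem e18_2_7 : entChk 2 et18 mA18 mC18 2 7 = true := by
  decide +kernel
theorem r18_2 : rowChk 2 et18 mA18 mC18 2 = true :=
  row_of 2 e18_2_0 e18_2_1 e18_2_2 e18_2_3 e18_2_4 e18_2_5 e18_2_6 e18_2_7
theorem e18_3_0 : entChk 2 et18 mA18 mC18 3 0 = true := by
  decide +kernel
theorem e18_3_1 : entChk 2 et18 mA18 mC18 3 1 = true := by
  decide +kernel
theorem e18_3_2 : entChk 2 et18 mA18 mC18 3 2 = true := by
  decide +kernel
theorem e18_3_3 : entChk 2 et18 mA18 mC18 3 3 = true := by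
  decide +kernel
theorem e18_3_4 : entChk 2 et18 mA18 mC18 3 4 = true := by
  decide +kernel
theorem e18_3_5 : entChk 2 et18 mA18 mC18 3 5 = true := by
  decide +kernel
theorem e18_3_6 : entChk 2 et18 mA18 mC18 3 6 = true := by
  decide +kernel
theorem e18_3_7 : entChk 2 et18 mA18 mC18 3 7 = true := by
  decide +kernel
theorem r18_3 : rowChk 2 et18 mA18 mC18 3 = true :=
  row_of 3 e18_3_0 e18_3_1 e18_3_2 e18_3_3 e18_3_4 e18_3_5 e18_3_6 e18_3_7
theorem e18_4_0 : entChk 2 et18 mA18 mC18 4 0 = true := by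
  decide +kernel
theorem e18_4_1 : entChk 2 et18 mA18 mC18 4 1 = true := by
  decide +kernel
theorem e18_4_2 : entChk 2 et18 mA18 mC18 4 2 = true := by
  decide +kernel
theorem e18_4_3 : entChk 2 et18 mA18 mC18 4 3 = true := by
  decide +kernel
theorem e18_4_4 : entChk 2 et18 mA18 mC18 4 4 = true := by
  decide +kernel
theorem e18_4_5 : entChk 2 et18 mA18 mC18 4 5 = true := by
  decide +kernel
theorem e18_4_6 : entChk 2 et18 mA18 mC18 4 6 = true := by
  decide +kernel
theorem e18_4_7 : entChk 2 et18 mA18 mC18 4 7 = true := by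
  decide +kernel
theorem r18_4 : rowChk 2 et18 mA18 mC18 4 = true :=
  row_of 4 e18_4_0 e18_4_1 e18_4_2 e18_4_3 e18_4_4 e18_4_5 e18_4_6 e18_4_7
theorem e18_5_0 : entChk 2 et18 mA18 mC18 5 0 = true := by
  decide +kernel
theorem e18_5_1 : entChk 2 et18 mA18 mC18 5 1 = true := by
  decide +kernel
theorem e18_5_2 : entChk 2 et18 mA18 mC18 5 2 = true := by
  decide +kernel
theorem e18_5_3 : entChk 2 et18 mA18 mC18 5 3 = true := by
  decide +kernel
theorem e18_5_4 : entChk 2 et18 mA18 mC18 5 4 = true := by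
  decide +kernel
theorem e18_5_5 : entChk 2 et18 mA18 mC18 5 5 = true := by
  decide +kernel
theorem e18_5_6 : entChk 2 et18 mA18 mC18 5 6 = true := by
  decide +kernel
theorem e18_5_7 : entChk 2 et18 mA18 mC18 5 7 = true := by
  decide +kernel
theorem r18_5 : rowChk 2 et18 mA18 mC18 5 = true :=
  row_of 5 e18_5_0 e18_5_1 e18_5_2 e18_5_3 e18_5_4 e18_5_5 e18_5_6 e18_5_7

end Pool.Agent.LibMV18
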