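import Pool.Agent.LibMV18.Main0

set_option autoImplicit false
set_option linter.unusedSimpArgs false

namespace Pool.Agent.LibMV18

open MvPolynomial Pool.Agent.Mond61 Pool.Agent.LibMX34

/-- coefficient and list of variables of a term code -/
def dec (c : ℕ) : ℕ × List ℕ := (tk c, [td c 0, td c 1, td c 2, td c 3, td c 4].filter (· < 13))

theorem prod_filter_gx {A : Type} [CommRing A] (x : ℕ → A) (l : List ℕ) :
    ((l.filter (· < 13)).map x).prod = (l.map (gx x)).prod := by
  induction l with
  | nil => rfl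
  | cons d l ih =>
    by_cases h : d < 13
    · rw [List.filter_cons_of_pos (by simpa using h), List.map_cons, List.map_cons, List.prod_cons, List.prod_cons, ih]
      unfold gx
      rw [if_pos h]
    · rw [List.filter_cons_of_neg (by simpa using h), List.map_cons, List.prod_cons, ih]
      unfold gx
      rw [if_neg h, one_mul]

theorem tv_dec {A : Type} [CommRing A] (x : ℕ → A) (c : ℕ) : tv x c = ((dec c).1 : A) * ((dec c).2.map x).prod := by
  unfold dec
  rw [prod_filter_gx]
  unfold tv
  simp only [List.map_cons, List.map_nil, List.prod_cons, List.prod_nil]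
  ring

/-- value of a list of decoded terms -/
def lw {A : Type} [CommRing A] (x : ℕ → A) (l : List (ℕ × List ℕ)) : A := (l.map fun p => (p.1 : A) * (p.2.map x).prod).sum

theorem pv_dec {A : Type} [CommRing A] (x : ℕ → A) (N : ℕ) (l : List (ℕ × List ℕ)) (h : (tl N).map dec = l) :
    pv x N = lw x l := by
  rw [pv_eq_lv, ← h]
  unfold lv lw
  rw [List.map_map]
  congr 1
  refine List.map_congr_left fun c _ => tv_dec x c

theorem sv_dec {A : Type} [CommRing A] (x : ℕ → A) (P N : ℕ) (l m : List (ℕ × List ℕ)) (h : (tl P).map dec = l)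
    (h' : (tl N).map dec = m) : sv x (P, N) = lw x l - lw x m := by
  unfold sv
  rw [pv_dec x P l h, pv_dec x N m h']

section
variable {A : Type} [CommRing A] (x : ℕ → A)

private theorem lX04 : sv x (0x1fffff001, 0) = 1 := by
  rw [sv_dec x _ _ [(1, [])] [] (by decide +kernel) (by decide +kernel)]
  simp only [lw, List.map_cons, List.map_nil, List.sum_cons, List.sum_nil, List.prod_cons, List.prod_nil]
  push_cast
  ring

private theorem lX15 : sv x (0x1fffff001, 0) = 1 := by
  rw [sv_dec x _ _ [(1, [])] [] (by decide +kernel) (by decide +kernel)]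
  simp only [lw, List.map_cons, List.map_nil, List.sum_cons, List.sum_nil, List.prod_cons, List.prod_nil]
  push_cast
  ring

private theorem lX26 : sv x (0x1fffff001, 0) = 1 := by
  rw [sv_dec x _ _ [(1, [])] [] (by decide +kernel) (by decide +kernel)]
  simp only [lw, List.map_cons, List.map_nil, List.sum_cons, List.sum_nil, List.prod_cons, List.prod_nil]
  push_cast
  ring

private theorem lX37 : sv x (0x1fffff001, 0) = 1 := by
  rw [sv_dec x _ _ [(1, [])] [] (by decide +kernel) (by decide +kernel)]
  simp only [lw, List.map_cons, List.map_nil, List.sum_cons, List.sum_nil, List.prod_cons, List.prod_nil]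
  push_cast
  ring

private theorem lX40 : sv x (0x1ffff9001, 0) = x 9 := by
  rw [sv_dec x _ _ [(1, [9])] [] (by decide +kernel) (by decide +kernel)]
  simp only [lw, List.map_cons, List.map_nil, List.sum_cons, List.sum_nil, List.prod_cons, List.prod_nil]
  push_cast
  ring

private theorem lX41 : sv x (0, 0x1ffff1001) = -x 1 := by
  rw [sv_dec x _ _ [] [(1, [1])] (by decide +kernel) (by decide +kernel)]
  simp only [lw, List.map_cons, List.map_nil, List.sum_cons, List.sum_nil, List.prod_cons, List.prod_nil]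
  push_cast
  ring

private theorem lX42 : sv x (0, 0x1ffff0001) = -x 0 := by
  rw [sv_dec x _ _ [] [(1, [0])] (by decide +kernel) (by decide +kernel)]
  simp only [lw, List.map_cons, List.map_nil, List.sum_cons, List.sum_nil, List.prod_cons, List.prod_nil]
  push_cast
  ring

private theorem lX50 : sv x (0, 0x1fffb1001) = -x 1*x 11 := by
  rw [sv_dec x _ _ [] [(1, [1, 11])] (by decide +kernel) (by decide +kernel)]
  simp only [lw, List.map_cons, List.map_nil, List.sum_cons, List.sum_nil, List.prod_cons, List.prod_nil]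
  push_cast
  ring

private theorem lX51 : sv x (0x1ffff9001, 0) = x 9 := by
  rw [sv_dec x _ _ [(1, [9])] [] (by decide +kernel) (by decide +kernel)]
  simp only [lw, List.map_cons, List.map_nil, List.sum_cons, List.sum_nil, List.prod_cons, List.prod_nil]
  push_cast
  ring

private theorem lX52 : sv x (0x1fff51001, 0) = x 1*x 5 := by
  rw [sv_dec x _ _ [(1, [1, 5])] [] (by decide +kernel) (by decide +kernel)]
  simp only [lw, List.map_cons, List.map_nil, List.sum_cons, List.sum_nil, List.prod_cons, List.prod_nil]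
  push_cast
  ring

private theorem lX53 : sv x (0, 0x1ffff0001) = -x 0 := by
  rw [sv_dec x _ _ [] [(1, [0])] (by decide +kernel) (by decide +kernel)]
  simp only [lw, List.map_cons, List.map_nil, List.sum_cons, List.sum_nil, List.prod_cons, List.prod_nil]
  push_cast
  ring

private theorem lX54 : sv x (0x1fff41001, 0) = x 1*x 4 := by
  rw [sv_dec x _ _ [(1, [1, 4])] [] (by decide +kernel) (by decide +kernel)]
  simp only [lw, List.map_cons, List.map_nil, List.sum_cons, List.sum_nil, List.prod_cons, List.prod_nil]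
  push_cast
  ring

private theorem lX56 : sv x (0x1ffff1001, 0) = x 1 := by
  rw [sv_dec x _ _ [(1, [1])] [] (by decide +kernel) (by decide +kernel)]
  simp only [lw, List.map_cons, List.map_nil, List.sum_cons, List.sum_nil, List.prod_cons, List.prod_nil]
  push_cast
  ring

private theorem lX60 : sv x (0, 0x1fffa0001) = -x 0*x 10 := by
  rw [sv_dec x _ _ [] [(1, [0, 10])] (by decide +kernel) (by decide +kernel)]
  simp only [lw, List.map_cons, List.map_nil, List.sum_cons, List.sum_nil, List.prod_cons, List.prod_nil]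
  push_cast
  ring

private theorem lX61 : sv x (0x1fff30001, 0) = x 0*x 3 := by
  rw [sv_dec x _ _ [(1, [0, 3])] [] (by decide +kernel) (by decide +kernel)]
  simp only [lw, List.map_cons, List.map_nil, List.sum_cons, List.sum_nil, List.prod_cons, List.prod_nil]
  push_cast
  ring

private theorem lX62 : sv x (0x1ffff9001, 0) = x 9 := by
  rw [sv_dec x _ _ [(1, [9])] [] (by decide +kernel) (by decide +kernel)]
  simp only [lw, List.map_cons, List.map_nil, List.sum_cons, List.sum_nil, List.prod_cons, List.prod_nil]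
  push_cast
  ring

private theorem lX63 : sv x (0, 0x1ffff1001) = -x 1 := by
  rw [sv_dec x _ _ [] [(1, [1])] (by decide +kernel) (by decide +kernel)]
  simp only [lw, List.map_cons, List.map_nil, List.sum_cons, List.sum_nil, List.prod_cons, List.prod_nil]
  push_cast
  ring

private theorem lX64 : sv x (0x1fff20001, 0) = x 0*x 2 := by
  rw [sv_dec x _ _ [(1, [0, 2])] [] (by decide +kernel) (by decide +kernel)]
  simp only [lw, List.map_cons, List.map_nil, List.sum_cons, List.sum_nil, List.prod_cons, List.prod_nil]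
  push_cast
  ring

private theorem lX65 : sv x (0x1ffff0001, 0) = x 0 := by
  rw [sv_dec x _ _ [(1, [0])] [] (by decide +kernel) (by decide +kernel)]
  simp only [lw, List.map_cons, List.map_nil, List.sum_cons, List.sum_nil, List.prod_cons, List.prod_nil]
  push_cast
  ring

private theorem lX70 : sv x (0x1ffa00001ffb30001ffb11001ffa51004, 0x1ff940001ff921002) = x 0^2*x 10 + x 0*x 3*x 11 - x 0*x 4*x 9 + x 1^2*x 11 - x 1*x 2*x 9 + x 1*x 5*x 10 := by
  rw [sv_dec x _ _ [(1, [1, 5, 10]), (1, [1, 1, 11]), (1, [0, 3, 11]), (1, [0, 0, 10])] [(1, [1, 2, 9]), (1, [0, 4, 9])] (by decide +kernel) (by decide +kernel)]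
  simp only [lw, List.map_cons, List.map_nil, List.sum_cons, List.sum_nil, List.prod_cons, List.prod_nil]
  push_cast
  ring

private theorem lX71 : sv x (0x1ff410001ff211002, 0x1ff300001fffa0001ff531001fff91004) = -x 0^2*x 3 + x 0*x 1*x 4 - x 0*x 10 + x 1^2*x 2 - x 1*x 3*x 5 - x 1*x 9 := by
  rw [sv_dec x _ _ [(1, [1, 1, 2]), (1, [0, 1, 4])] [(1, [1, 9]), (1, [1, 3, 5]), (1, [0, 10]), (1, [0, 0, 3])] (by decide +kernel) (by decide +kernel)]
  simp only [lw, List.map_cons, List.map_nil, List.sum_cons, List.sum_nil, List.prod_cons, List.prod_nil]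
  push_cast
  ring

private theorem lX72 : sv x (0x1ff400001ff210002, 0x1ff530001fff90001ff511001fffb1004) = x 0^2*x 4 + x 0*x 1*x 2 - x 0*x 3*x 5 - x 0*x 9 - x 1^2*x 5 - x 1*x 11 := by
  rw [sv_dec x _ _ [(1, [0, 1, 2]), (1, [0, 0, 4])] [(1, [1, 11]), (1, [1, 1, 5]), (1, [0, 9]), (1, [0, 3, 5])] (by decide +kernel) (by decide +kernel)]
  simp only [lw, List.map_cons, List.map_nil, List.sum_cons, List.sum_nil, List.prod_cons, List.prod_nil]
  push_cast
  ring

private theorem lX73 : sv x (0x2fff10001ffff9002, 0) = 2*x 0*x 1 + x 9 := by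
  rw [sv_dec x _ _ [(1, [9]), (2, [0, 1])] [] (by decide +kernel) (by decide +kernel)]
  simp only [lw, List.map_cons, List.map_nil, List.sum_cons, List.sum_nil, List.prod_cons, List.prod_nil]
  push_cast
  ring

private theorem lX74 : sv x (0x1fffb0001fffa1002, 0x1ff200001ff430001ff411001ff521004) = -x 0^2*x 2 - x 0*x 3*x 4 + x 0*x 11 - x 1^2*x 4 - x 1*x 2*x 5 + x 1*x 10 := by
  rw [sv_dec x _ _ [(1, [1, 10]), (1, [0, 11])] [(1, [1, 2, 5]), (1, [1, 1, 4]), (1, [0, 3, 4]), (1, [0, 0, 2])] (by decide +kernel) (by decide +kernel)]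
  simp only [lw, List.map_cons, List.map_nil, List.sum_cons, List.sum_nil, List.prod_cons, List.prod_nil]
  push_cast
  ring

private theorem lX75 : sv x (0x1fff20001, 0x1fff00001fff31001fff51003) = -x 0^2 + x 0*x 2 - x 1*x 3 - x 1*x 5 := by
  rw [sv_dec x _ _ [(1, [0, 2])] [(1, [1, 5]), (1, [1, 3]), (1, [0, 0])] (by decide +kernel) (by decide +kernel)]
  simp only [lw, List.map_cons, List.map_nil, List.sum_cons, List.sum_nil, List.prod_cons, List.prod_nil]
  push_cast
  ring

private theorem lX76 : sv x (0x1fff41001, 0x1fff30001fff50001fff11003) = -x 0*x 3 - x 0*x 5 - x 1^2 + x 1*x 4 := by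
  rw [sv_dec x _ _ [(1, [1, 4])] [(1, [1, 1]), (1, [0, 5]), (1, [0, 3])] (by decide +kernel) (by decide +kernel)]
  simp only [lw, List.map_cons, List.map_nil, List.sum_cons, List.sum_nil, List.prod_cons, List.prod_nil]
  push_cast
  ring

private theorem sv00 : sv x (0, 0) = 0 := by
  unfold sv
  rw [sub_self]

theorem mX_ok : MX (fun k : Fin 9 => x k) (fun j : Fin 3 => x (9 + j)) = mm x mX := by
  ext a b
  fin_cases a <;> fin_cases b
  · exact (sv00 x).symm
  · exact (sv00 x).symm
  · exact (sv00 x).symm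
  · exact (sv00 x).symm
  · exact (lX04 x).symm
  · exact (sv00 x).symm
  · exact (sv00 x).symm
  · exact (sv00 x).symm
  · exact (sv00 x).symm
  · exact (sv00 x).symm
  · exact (sv00 x).symm
  · exact (sv00 x).symm
  · exact (sv00 x).symm
  · exact (lX15 x).symm
  · exact (sv00 x).symm
  · exact (sv00 x).symm
  · exact (sv00 x).symm
  · exact (sv00 x).symm
  · exact (sv00 x).symm
  · exact (sv00 x).symm
  · exact (sv00 x).symm
  · exact (sv00 x).symm
  · exact (lX26 x).symm
  · exact (sv00 x).symm
  · exact (sv00 x).symm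
  · exact (sv00 x).symm
  · exact (sv00 x).symm
  · exact (sv00 x).symm
  · exact (sv00 x).symm
  · exact (sv00 x).symm
  · exact (sv00 x).symm
  · exact (lX37 x).symm
  · exact (lX40 x).symm
  · exact (lX41 x).symm
  · exact (lX42 x).symm
  · exact (sv00 x).symm
  · exact (sv00 x).symm
  · exact (sv00 x).symm
  · exact (sv00 x).symm
  · exact (sv00 x).symm
  · exact (lX50 x).symm
  · exact (lX51 x).symm
  · exact (lX52 x).symm
  · exact (lX53 x).symm
  · exact (lX54 x).symm
  · exact (sv00 x).symm
  · exact (lX56 x).symm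
  · exact (sv00 x).symm
  · exact (lX60 x).symm
  · exact (lX61 x).symm
  · exact (lX62 x).symm
  · exact (lX63 x).symm
  · exact (lX64 x).symm
  · exact (lX65 x).symm
  · exact (sv00 x).symm
  · exact (sv00 x).symm
  · exact (lX70 x).symm
  · exact (lX71 x).symm
  · exact (lX72 x).symm
  · exact (lX73 x).symm
  · exact (lX74 x).symm
  · exact (lX75 x).symm
  · exact (lX76 x).symm
  · exact (sv00 x).symm

private theorem lY02 : sv x (0x1fffff001, 0) = 1 := by
  rw [sv_dec x _ _ [(1, [])] [] (by decide +kernel) (by decide +kernel)]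
  simp only [lw, List.map_cons, List.map_nil, List.sum_cons, List.sum_nil, List.prod_cons, List.prod_nil]
  push_cast
  ring

private theorem lY13 : sv x (0x1fffff001, 0) = 1 := by
  rw [sv_dec x _ _ [(1, [])] [] (by decide +kernel) (by decide +kernel)]
  simp only [lw, List.map_cons, List.map_nil, List.sum_cons, List.sum_nil, List.prod_cons, List.prod_nil]
  push_cast
  ring

private theorem lY20 : sv x (0x1ffffa001, 0) = x 10 := by
  rw [sv_dec x _ _ [(1, [10])] [] (by decide +kernel) (by decide +kernel)]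
  simp only [lw, List.map_cons, List.map_nil, List.sum_cons, List.sum_nil, List.prod_cons, List.prod_nil]
  push_cast
  ring

private theorem lY21 : sv x (0, 0x1ffff3001) = -x 3 := by
  rw [sv_dec x _ _ [] [(1, [3])] (by decide +kernel) (by decide +kernel)]
  simp only [lw, List.map_cons, List.map_nil, List.sum_cons, List.sum_nil, List.prod_cons, List.prod_nil]
  push_cast
  ring

private theorem lY24 : sv x (0, 0x1ffff2001) = -x 2 := by
  rw [sv_dec x _ _ [] [(1, [2])] (by decide +kernel) (by decide +kernel)]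
  simp only [lw, List.map_cons, List.map_nil, List.sum_cons, List.sum_nil, List.prod_cons, List.prod_nil]
  push_cast
  ring

private theorem lY25 : sv x (0, 0x1fffff001) = -1 := by
  rw [sv_dec x _ _ [] [(1, [])] (by decide +kernel) (by decide +kernel)]
  simp only [lw, List.map_cons, List.map_nil, List.sum_cons, List.sum_nil, List.prod_cons, List.prod_nil]
  push_cast
  ring

private theorem lY30 : sv x (0x1fff94001, 0x1fffa0001fffb3002) = -x 0*x 10 - x 3*x 11 + x 4*x 9 := by
  rw [sv_dec x _ _ [(1, [4, 9])] [(1, [3, 11]), (1, [0, 10])] (by decide +kernel) (by decide +kernel)]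
  simp only [lw, List.map_cons, List.map_nil, List.sum_cons, List.sum_nil, List.prod_cons, List.prod_nil]
  push_cast
  ring

private theorem lY31 : sv x (0x1fff30001ffffa002, 0x1fff41001) = x 0*x 3 - x 1*x 4 + x 10 := by
  rw [sv_dec x _ _ [(1, [10]), (1, [0, 3])] [(1, [1, 4])] (by decide +kernel) (by decide +kernel)]
  simp only [lw, List.map_cons, List.map_nil, List.sum_cons, List.sum_nil, List.prod_cons, List.prod_nil]
  push_cast
  ring

private theorem lY32 : sv x (0x1fff53001ffff9002, 0x1fff40001) = -x 0*x 4 + x 3*x 5 + x 9 := by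
  rw [sv_dec x _ _ [(1, [9]), (1, [3, 5])] [(1, [0, 4])] (by decide +kernel) (by decide +kernel)]
  simp only [lw, List.map_cons, List.map_nil, List.sum_cons, List.sum_nil, List.prod_cons, List.prod_nil]
  push_cast
  ring

private theorem lY33 : sv x (0, 0x1ffff1001) = -x 1 := by
  rw [sv_dec x _ _ [] [(1, [1])] (by decide +kernel) (by decide +kernel)]
  simp only [lw, List.map_cons, List.map_nil, List.sum_cons, List.sum_nil, List.prod_cons, List.prod_nil]
  push_cast
  ring

private theorem lY34 : sv x (0x1fff20001fff43002, 0x1ffffb001) = x 0*x 2 + x 3*x 4 - x 11 := by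
  rw [sv_dec x _ _ [(1, [3, 4]), (1, [0, 2])] [(1, [11])] (by decide +kernel) (by decide +kernel)]
  simp only [lw, List.map_cons, List.map_nil, List.sum_cons, List.sum_nil, List.prod_cons, List.prod_nil]
  push_cast
  ring

private theorem lY35 : sv x (0x1ffff0001, 0x1ffff2001) = x 0 - x 2 := by
  rw [sv_dec x _ _ [(1, [0])] [(1, [2])] (by decide +kernel) (by decide +kernel)]
  simp only [lw, List.map_cons, List.map_nil, List.sum_cons, List.sum_nil, List.prod_cons, List.prod_nil]
  push_cast
  ring

private theorem lY36 : sv x (0x1ffff3001ffff5002, 0) = x 3 + x 5 := by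
  rw [sv_dec x _ _ [(1, [5]), (1, [3])] [] (by decide +kernel) (by decide +kernel)]
  simp only [lw, List.map_cons, List.map_nil, List.sum_cons, List.sum_nil, List.prod_cons, List.prod_nil]
  push_cast
  ring

private theorem lY46 : sv x (0x1fffff001, 0) = 1 := by
  rw [sv_dec x _ _ [(1, [])] [] (by decide +kernel) (by decide +kernel)]
  simp only [lw, List.map_cons, List.map_nil, List.sum_cons, List.sum_nil, List.prod_cons, List.prod_nil]
  push_cast
  ring

private theorem lY57 : sv x (0x1fffff001, 0) = 1 := by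
  rw [sv_dec x _ _ [(1, [])] [] (by decide +kernel) (by decide +kernel)]
  simp only [lw, List.map_cons, List.map_nil, List.sum_cons, List.sum_nil, List.prod_cons, List.prod_nil]
  push_cast
  ring

private theorem lY60 : sv x (0x1fffb1001, 0x1fff92001) = x 1*x 11 - x 2*x 9 := by
  rw [sv_dec x _ _ [(1, [1, 11])] [(1, [2, 9])] (by decide +kernel) (by decide +kernel)]
  simp only [lw, List.map_cons, List.map_nil, List.sum_cons, List.sum_nil, List.prod_cons, List.prod_nil]
  push_cast
  ring

private theorem lY61 : sv x (0x1fff21001, 0x1ffff9001) = x 1*x 2 - x 9 := by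
  rw [sv_dec x _ _ [(1, [1, 2])] [(1, [9])] (by decide +kernel) (by decide +kernel)]
  simp only [lw, List.map_cons, List.map_nil, List.sum_cons, List.sum_nil, List.prod_cons, List.prod_nil]
  push_cast
  ring

private theorem lY62 : sv x (0x1fff20001, 0x1fff51001) = x 0*x 2 - x 1*x 5 := by
  rw [sv_dec x _ _ [(1, [0, 2])] [(1, [1, 5])] (by decide +kernel) (by decide +kernel)]
  simp only [lw, List.map_cons, List.map_nil, List.sum_cons, List.sum_nil, List.prod_cons, List.prod_nil]
  push_cast
  ring

private theorem lY63 : sv x (0x1ffff0001, 0) = x 0 := by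
  rw [sv_dec x _ _ [(1, [0])] [] (by decide +kernel) (by decide +kernel)]
  simp only [lw, List.map_cons, List.map_nil, List.sum_cons, List.sum_nil, List.prod_cons, List.prod_nil]
  push_cast
  ring

private theorem lY64 : sv x (0x1ffffa001, 0x1fff41001) = -x 1*x 4 + x 10 := by
  rw [sv_dec x _ _ [(1, [10])] [(1, [1, 4])] (by decide +kernel) (by decide +kernel)]
  simp only [lw, List.map_cons, List.map_nil, List.sum_cons, List.sum_nil, List.prod_cons, List.prod_nil]
  push_cast
  ring

private theorem lY65 : sv x (0, 0x1ffff3001) = -x 3 := by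
  rw [sv_dec x _ _ [] [(1, [3])] (by decide +kernel) (by decide +kernel)]
  simp only [lw, List.map_cons, List.map_nil, List.sum_cons, List.sum_nil, List.prod_cons, List.prod_nil]
  push_cast
  ring

private theorem lY66 : sv x (0, 0x1ffff1001) = -x 1 := by
  rw [sv_dec x _ _ [] [(1, [1])] (by decide +kernel) (by decide +kernel)]
  simp only [lw, List.map_cons, List.map_nil, List.sum_cons, List.sum_nil, List.prod_cons, List.prod_nil]
  push_cast
  ring

private theorem lY70 : sv x (0x1ff920001ffb21001ff943003, 0x1ffb10001ffa30001ffa50001fffb9004) = -x 0*x 1*x 11 + x 0*x 2*x 9 - x 0*x 3*x 10 - x 0*x 5*x 10 + x 1*x 2*x 11 + x 3*x 4*x 9 - x 9*x 11 := by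
  rw [sv_dec x _ _ [(1, [3, 4, 9]), (1, [1, 2, 11]), (1, [0, 2, 9])] [(1, [9, 11]), (1, [0, 5, 10]), (1, [0, 3, 10]), (1, [0, 1, 11])] (by decide +kernel) (by decide +kernel)]
  simp only [lw, List.map_cons, List.map_nil, List.sum_cons, List.sum_nil, List.prod_cons, List.prod_nil]
  push_cast
  ring

private theorem lY71 : sv x (0x1ff330001ff530001fff90001fffb1004, 0x1ff210001ff431001fff92003) = -x 0*x 1*x 2 + x 0*x 3^2 + x 0*x 3*x 5 + x 0*x 9 - x 1*x 3*x 4 + x 1*x 11 - x 2*x 9 := by
  rw [sv_dec x _ _ [(1, [1, 11]), (1, [0, 9]), (1, [0, 3, 5]), (1, [0, 3, 3])] [(1, [2, 9]), (1, [1, 3, 4]), (1, [0, 1, 2])] (by decide +kernel) (by decide +kernel)]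
  simp only [lw, List.map_cons, List.map_nil, List.sum_cons, List.sum_nil, List.prod_cons, List.prod_nil]
  push_cast
  ring

private theorem lY72 : sv x (0x1ff510001fffb0001fff93001fff95004, 0x1ff200001ff430001ff521003) = -x 0^2*x 2 + x 0*x 1*x 5 - x 0*x 3*x 4 + x 0*x 11 - x 1*x 2*x 5 + x 3*x 9 + x 5*x 9 := by
  rw [sv_dec x _ _ [(1, [5, 9]), (1, [3, 9]), (1, [0, 11]), (1, [0, 1, 5])] [(1, [1, 2, 5]), (1, [0, 3, 4]), (1, [0, 0, 2])] (by decide +kernel) (by decide +kernel)]
  simp only [lw, List.map_cons, List.map_nil, List.sum_cons, List.sum_nil, List.prod_cons, List.prod_nil]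
  push_cast
  ring

private theorem lY73 : sv x (0x1fff20001, 0x1fff00001fff31001fff51003) = -x 0^2 + x 0*x 2 - x 1*x 3 - x 1*x 5 := by
  rw [sv_dec x _ _ [(1, [0, 2])] [(1, [1, 5]), (1, [1, 3]), (1, [0, 0])] (by decide +kernel) (by decide +kernel)]
  simp only [lw, List.map_cons, List.map_nil, List.sum_cons, List.sum_nil, List.prod_cons, List.prod_nil]
  push_cast
  ring

private theorem lY74 : sv x (0x1ff410001ff320001ff520001fff94004, 0x1fffa0001ff421001fffb3003) = x 0*x 1*x 4 + x 0*x 2*x 3 + x 0*x 2*x 5 - x 0*x 10 - x 1*x 2*x 4 - x 3*x 11 + x 4*x 9 := by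
  rw [sv_dec x _ _ [(1, [4, 9]), (1, [0, 2, 5]), (1, [0, 2, 3]), (1, [0, 1, 4])] [(1, [3, 11]), (1, [1, 2, 4]), (1, [0, 10])] (by decide +kernel) (by decide +kernel)]
  simp only [lw, List.map_cons, List.map_nil, List.sum_cons, List.sum_nil, List.prod_cons, List.prod_nil]
  push_cast
  ring

private theorem lY75 : sv x (0x2fff30001fff50001ffffa003, 0x1fff41001) = 2*x 0*x 3 + x 0*x 5 - x 1*x 4 + x 10 := by
  rw [sv_dec x _ _ [(1, [10]), (1, [0, 5]), (2, [0, 3])] [(1, [1, 4])] (by decide +kernel) (by decide +kernel)]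
  simp only [lw, List.map_cons, List.map_nil, List.sum_cons, List.sum_nil, List.prod_cons, List.prod_nil]
  push_cast
  ring

private theorem lY76 : sv x (0x1fff10001fff53001ffff9003, 0x1fff40001fff21002) = x 0*x 1 - x 0*x 4 - x 1*x 2 + x 3*x 5 + x 9 := by
  rw [sv_dec x _ _ [(1, [9]), (1, [3, 5]), (1, [0, 1])] [(1, [1, 2]), (1, [0, 4])] (by decide +kernel) (by decide +kernel)]
  simp only [lw, List.map_cons, List.map_nil, List.sum_cons, List.sum_nil, List.prod_cons, List.prod_nil]
  push_cast
  ring

private theorem lY77 : sv x (0, 0x1ffff1001) = -x 1 := by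
  rw [sv_dec x _ _ [] [(1, [1])] (by decide +kernel) (by decide +kernel)]
  simp only [lw, List.map_cons, List.map_nil, List.sum_cons, List.sum_nil, List.prod_cons, List.prod_nil]
  push_cast
  ring


theorem mY_ok : MY (fun k : Fin 9 => x k) (fun j : Fin 3 => x (9 + j)) = mm x mY := by
  ext a b
  fin_cases a <;> fin_cases b
  · exact (sv00 x).symm
  · exact (sv00 x).symm
  · exact (lY02 x).symm
  · exact (sv00 x).symm
  · exact (sv00 x).symm
  · exact (sv00 x).symm
  · exact (sv00 x).symm
  · exact (sv00 x).symm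
  · exact (sv00 x).symm
  · exact (sv00 x).symm
  · exact (sv00 x).symm
  · exact (lY13 x).symm
  · exact (sv00 x).symm
  · exact (sv00 x).symm
  · exact (sv00 x).symm
  · exact (sv00 x).symm
  · exact (lY20 x).symm
  · exact (lY21 x).symm
  · exact (sv00 x).symm
  · exact (sv00 x).symm
  · exact (lY24 x).symm
  · exact (lY25 x).symm
  · exact (sv00 x).symm
  · exact (sv00 x).symm
  · exact (lY30 x).symm
  · exact (lY31 x).symm
  · exact (lY32 x).symm
  · exact (lY33 x).symm
  · exact (lY34 x).symm
  · exact (lY35 x).symm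
  · exact (lY36 x).symm
  · exact (sv00 x).symm
  · exact (sv00 x).symm
  · exact (sv00 x).symm
  · exact (sv00 x).symm
  · exact (sv00 x).symm
  · exact (sv00 x).symm
  · exact (sv00 x).symm
  · exact (lY46 x).symm
  · exact (sv00 x).symm
  · exact (sv00 x).symm
  · exact (sv00 x).symm
  · exact (sv00 x).symm
  · exact (sv00 x).symm
  · exact (sv00 x).symm
  · exact (sv00 x).symm
  · exact (sv00 x).symm
  · exact (lY57 x).symm
  · exact (lY60 x).symm
  · exact (lY61 x).symm
  · exact (lY62 x).symm
  · exact (lY63 x).symm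
  · exact (lY64 x).symm
  · exact (lY65 x).symm
  · exact (lY66 x).symm
  · exact (sv00 x).symm
  · exact (lY70 x).symm
  · exact (lY71 x).symm
  · exact (lY72 x).symm
  · exact (lY73 x).symm
  · exact (lY74 x).symm
  · exact (lY75 x).symm
  · exact (lY76 x).symm
  · exact (lY77 x).symm

private theorem lZ01 : sv x (0x1fffff001, 0) = 1 := by
  rw [sv_dec x _ _ [(1, [])] [] (by decide +kernel) (by decide +kernel)]
  simp only [lw, List.map_cons, List.map_nil, List.sum_cons, List.sum_nil, List.prod_cons, List.prod_nil]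
  push_cast
  ring

private theorem lZ10 : sv x (0x1ffffb001, 0) = x 11 := by
  rw [sv_dec x _ _ [(1, [11])] [] (by decide +kernel) (by decide +kernel)]
  simp only [lw, List.map_cons, List.map_nil, List.sum_cons, List.sum_nil, List.prod_cons, List.prod_nil]
  push_cast
  ring

private theorem lZ12 : sv x (0, 0x1ffff5001) = -x 5 := by
  rw [sv_dec x _ _ [] [(1, [5])] (by decide +kernel) (by decide +kernel)]
  simp only [lw, List.map_cons, List.map_nil, List.sum_cons, List.sum_nil, List.prod_cons, List.prod_nil]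
  push_cast
  ring

private theorem lZ14 : sv x (0, 0x1ffff4001) = -x 4 := by
  rw [sv_dec x _ _ [] [(1, [4])] (by decide +kernel) (by decide +kernel)]
  simp only [lw, List.map_cons, List.map_nil, List.sum_cons, List.sum_nil, List.prod_cons, List.prod_nil]
  push_cast
  ring

private theorem lZ16 : sv x (0, 0x1fffff001) = -1 := by
  rw [sv_dec x _ _ [] [(1, [])] (by decide +kernel) (by decide +kernel)]
  simp only [lw, List.map_cons, List.map_nil, List.sum_cons, List.sum_nil, List.prod_cons, List.prod_nil]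
  push_cast
  ring

private theorem lZ23 : sv x (0x1fffff001, 0) = 1 := by
  rw [sv_dec x _ _ [(1, [])] [] (by decide +kernel) (by decide +kernel)]
  simp only [lw, List.map_cons, List.map_nil, List.sum_cons, List.sum_nil, List.prod_cons, List.prod_nil]
  push_cast
  ring

private theorem lZ30 : sv x (0x1fff92001, 0x1fffb1001fffa5002) = -x 1*x 11 + x 2*x 9 - x 5*x 10 := by
  rw [sv_dec x _ _ [(1, [2, 9])] [(1, [5, 10]), (1, [1, 11])] (by decide +kernel) (by decide +kernel)]
  simp only [lw, List.map_cons, List.map_nil, List.sum_cons, List.sum_nil, List.prod_cons, List.prod_nil]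
  push_cast
  ring

private theorem lZ31 : sv x (0x1fff53001ffff9002, 0x1fff21001) = -x 1*x 2 + x 3*x 5 + x 9 := by
  rw [sv_dec x _ _ [(1, [9]), (1, [3, 5])] [(1, [1, 2])] (by decide +kernel) (by decide +kernel)]
  simp only [lw, List.map_cons, List.map_nil, List.sum_cons, List.sum_nil, List.prod_cons, List.prod_nil]
  push_cast
  ring

private theorem lZ32 : sv x (0x1fff51001ffffb002, 0x1fff20001) = -x 0*x 2 + x 1*x 5 + x 11 := by
  rw [sv_dec x _ _ [(1, [11]), (1, [1, 5])] [(1, [0, 2])] (by decide +kernel) (by decide +kernel)]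
  simp only [lw, List.map_cons, List.map_nil, List.sum_cons, List.sum_nil, List.prod_cons, List.prod_nil]
  push_cast
  ring

private theorem lZ33 : sv x (0, 0x1ffff0001) = -x 0 := by
  rw [sv_dec x _ _ [] [(1, [0])] (by decide +kernel) (by decide +kernel)]
  simp only [lw, List.map_cons, List.map_nil, List.sum_cons, List.sum_nil, List.prod_cons, List.prod_nil]
  push_cast
  ring

private theorem lZ34 : sv x (0x1fff41001fff52002, 0x1ffffa001) = x 1*x 4 + x 2*x 5 - x 10 := by
  rw [sv_dec x _ _ [(1, [2, 5]), (1, [1, 4])] [(1, [10])] (by decide +kernel) (by decide +kernel)]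
  simp only [lw, List.map_cons, List.map_nil, List.sum_cons, List.sum_nil, List.prod_cons, List.prod_nil]
  push_cast
  ring

private theorem lZ35 : sv x (0x1ffff3001ffff5002, 0) = x 3 + x 5 := by
  rw [sv_dec x _ _ [(1, [5]), (1, [3])] [] (by decide +kernel) (by decide +kernel)]
  simp only [lw, List.map_cons, List.map_nil, List.sum_cons, List.sum_nil, List.prod_cons, List.prod_nil]
  push_cast
  ring

private theorem lZ36 : sv x (0x1ffff1001, 0x1ffff4001) = x 1 - x 4 := by
  rw [sv_dec x _ _ [(1, [1])] [(1, [4])] (by decide +kernel) (by decide +kernel)]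
  simp only [lw, List.map_cons, List.map_nil, List.sum_cons, List.sum_nil, List.prod_cons, List.prod_nil]
  push_cast
  ring

private theorem lZ45 : sv x (0x1fffff001, 0) = 1 := by
  rw [sv_dec x _ _ [(1, [])] [] (by decide +kernel) (by decide +kernel)]
  simp only [lw, List.map_cons, List.map_nil, List.sum_cons, List.sum_nil, List.prod_cons, List.prod_nil]
  push_cast
  ring

private theorem lZ50 : sv x (0x1fffa0001, 0x1fff94001) = x 0*x 10 - x 4*x 9 := by
  rw [sv_dec x _ _ [(1, [0, 10])] [(1, [4, 9])] (by decide +kernel) (by decide +kernel)]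
  simp only [lw, List.map_cons, List.map_nil, List.sum_cons, List.sum_nil, List.prod_cons, List.prod_nil]
  push_cast
  ring

private theorem lZ51 : sv x (0x1fff41001, 0x1fff30001) = -x 0*x 3 + x 1*x 4 := by
  rw [sv_dec x _ _ [(1, [1, 4])] [(1, [0, 3])] (by decide +kernel) (by decide +kernel)]
  simp only [lw, List.map_cons, List.map_nil, List.sum_cons, List.sum_nil, List.prod_cons, List.prod_nil]
  push_cast
  ring

private theorem lZ52 : sv x (0x1fff40001, 0x1ffff9001) = x 0*x 4 - x 9 := by
  rw [sv_dec x _ _ [(1, [0, 4])] [(1, [9])] (by decide +kernel) (by decide +kernel)]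
  simp only [lw, List.map_cons, List.map_nil, List.sum_cons, List.sum_nil, List.prod_cons, List.prod_nil]
  push_cast
  ring

private theorem lZ53 : sv x (0x1ffff1001, 0) = x 1 := by
  rw [sv_dec x _ _ [(1, [1])] [] (by decide +kernel) (by decide +kernel)]
  simp only [lw, List.map_cons, List.map_nil, List.sum_cons, List.sum_nil, List.prod_cons, List.prod_nil]
  push_cast
  ring

private theorem lZ54 : sv x (0x1ffffb001, 0x1fff20001) = -x 0*x 2 + x 11 := by
  rw [sv_dec x _ _ [(1, [11])] [(1, [0, 2])] (by decide +kernel) (by decide +kernel)]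
  simp only [lw, List.map_cons, List.map_nil, List.sum_cons, List.sum_nil, List.prod_cons, List.prod_nil]
  push_cast
  ring

private theorem lZ55 : sv x (0, 0x1ffff0001) = -x 0 := by
  rw [sv_dec x _ _ [] [(1, [0])] (by decide +kernel) (by decide +kernel)]
  simp only [lw, List.map_cons, List.map_nil, List.sum_cons, List.sum_nil, List.prod_cons, List.prod_nil]
  push_cast
  ring

private theorem lZ56 : sv x (0, 0x1ffff5001) = -x 5 := by
  rw [sv_dec x _ _ [] [(1, [5])] (by decide +kernel) (by decide +kernel)]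
  simp only [lw, List.map_cons, List.map_nil, List.sum_cons, List.sum_nil, List.prod_cons, List.prod_nil]
  push_cast
  ring

private theorem lZ67 : sv x (0x1fffff001, 0) = 1 := by
  rw [sv_dec x _ _ [(1, [])] [] (by decide +kernel) (by decide +kernel)]
  simp only [lw, List.map_cons, List.map_nil, List.sum_cons, List.sum_nil, List.prod_cons, List.prod_nil]
  push_cast
  ring

private theorem lZ70 : sv x (0x1ffa40001ff941001ff952003, 0x1ffa10001ffb31001ffb51001fffa9004) = -x 0*x 1*x 10 + x 0*x 4*x 10 - x 1*x 3*x 11 + x 1*x 4*x 9 - x 1*x 5*x 11 + x 2*x 5*x 9 - x 9*x 10 := by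
  rw [sv_dec x _ _ [(1, [2, 5, 9]), (1, [1, 4, 9]), (1, [0, 4, 10])] [(1, [9, 10]), (1, [1, 5, 11]), (1, [1, 3, 11]), (1, [0, 1, 10])] (by decide +kernel) (by decide +kernel)]
  simp only [lw, List.map_cons, List.map_nil, List.sum_cons, List.sum_nil, List.prod_cons, List.prod_nil]
  push_cast
  ring

private theorem lZ71 : sv x (0x1ff310001fffa1001fff93001fff95004, 0x1ff430001ff411001ff521003) = x 0*x 1*x 3 - x 0*x 3*x 4 - x 1^2*x 4 - x 1*x 2*x 5 + x 1*x 10 + x 3*x 9 + x 5*x 9 := by
  rw [sv_dec x _ _ [(1, [5, 9]), (1, [3, 9]), (1, [1, 10]), (1, [0, 1, 3])] [(1, [1, 2, 5]), (1, [1, 1, 4]), (1, [0, 3, 4])] (by decide +kernel) (by decide +kernel)]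
  simp only [lw, List.map_cons, List.map_nil, List.sum_cons, List.sum_nil, List.prod_cons, List.prod_nil]
  push_cast
  ring

private theorem lZ72 : sv x (0x1fffa0001ff531001ff551001fff91004, 0x1ff410001ff520001fff94003) = -x 0*x 1*x 4 - x 0*x 2*x 5 + x 0*x 10 + x 1*x 3*x 5 + x 1*x 5^2 + x 1*x 9 - x 4*x 9 := by
  rw [sv_dec x _ _ [(1, [1, 9]), (1, [1, 5, 5]), (1, [1, 3, 5]), (1, [0, 10])] [(1, [4, 9]), (1, [0, 2, 5]), (1, [0, 1, 4])] (by decide +kernel) (by decide +kernel)]
  simp only [lw, List.map_cons, List.map_nil, List.sum_cons, List.sum_nil, List.prod_cons, List.prod_nil]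
  push_cast
  ring

private theorem lZ73 : sv x (0x1fff41001, 0x1fff30001fff50001fff11003) = -x 0*x 3 - x 0*x 5 - x 1^2 + x 1*x 4 := by
  rw [sv_dec x _ _ [(1, [1, 4])] [(1, [1, 1]), (1, [0, 5]), (1, [0, 3])] (by decide +kernel) (by decide +kernel)]
  simp only [lw, List.map_cons, List.map_nil, List.sum_cons, List.sum_nil, List.prod_cons, List.prod_nil]
  push_cast
  ring

private theorem lZ74 : sv x (0x1ff210001ff431001ff541001fff92004, 0x1ff420001fffb1001fffa5003) = x 0*x 1*x 2 - x 0*x 2*x 4 + x 1*x 3*x 4 + x 1*x 4*x 5 - x 1*x 11 + x 2*x 9 - x 5*x 10 := by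
  rw [sv_dec x _ _ [(1, [2, 9]), (1, [1, 4, 5]), (1, [1, 3, 4]), (1, [0, 1, 2])] [(1, [5, 10]), (1, [1, 11]), (1, [0, 2, 4])] (by decide +kernel) (by decide +kernel)]
  simp only [lw, List.map_cons, List.map_nil, List.sum_cons, List.sum_nil, List.prod_cons, List.prod_nil]
  push_cast
  ring

private theorem lZ75 : sv x (0x1fff10001fff53001ffff9003, 0x1fff40001fff21002) = x 0*x 1 - x 0*x 4 - x 1*x 2 + x 3*x 5 + x 9 := by
  rw [sv_dec x _ _ [(1, [9]), (1, [3, 5]), (1, [0, 1])] [(1, [1, 2]), (1, [0, 4])] (by decide +kernel) (by decide +kernel)]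
  simp only [lw, List.map_cons, List.map_nil, List.sum_cons, List.sum_nil, List.prod_cons, List.prod_nil]
  push_cast
  ring

private theorem lZ76 : sv x (0x1fff31002fff51001ffffb003, 0x1fff20001) = -x 0*x 2 + x 1*x 3 + 2*x 1*x 5 + x 11 := by
  rw [sv_dec x _ _ [(1, [11]), (2, [1, 5]), (1, [1, 3])] [(1, [0, 2])] (by decide +kernel) (by decide +kernel)]
  simp only [lw, List.map_cons, List.map_nil, List.sum_cons, List.sum_nil, List.prod_cons, List.prod_nil]
  push_cast
  ring

private theorem lZ77 : sv x (0, 0x1ffff0001) = -x 0 := by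
  rw [sv_dec x _ _ [] [(1, [0])] (by decide +kernel) (by decide +kernel)]
  simp only [lw, List.map_cons, List.map_nil, List.sum_cons, List.sum_nil, List.prod_cons, List.prod_nil]
  push_cast
  ring


theorem mZ_ok : MZ (fun k : Fin 9 => x k) (fun j : Fin 3 => x (9 + j)) = mm x mZ := by
  ext a b
  fin_cases a <;> fin_cases b
  · exact (sv00 x).symm
  · exact (lZ01 x).symm
  · exact (sv00 x).symm
  · exact (sv00 x).symm
  · exact (sv00 x).symm
  · exact (sv00 x).symm
  · exact (sv00 x).symm
  · exact (sv00 x).symm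
  · exact (lZ10 x).symm
  · exact (sv00 x).symm
  · exact (lZ12 x).symm
  · exact (sv00 x).symm
  · exact (lZ14 x).symm
  · exact (sv00 x).symm
  · exact (lZ16 x).symm
  · exact (sv00 x).symm
  · exact (sv00 x).symm
  · exact (sv00 x).symm
  · exact (sv00 x).symm
  · exact (lZ23 x).symm
  · exact (sv00 x).symm
  · exact (sv00 x).symm
  · exact (sv00 x).symm
  · exact (sv00 x).symm
  · exact (lZ30 x).symm
  · exact (lZ31 x).symm
  · exact (lZ32 x).symm
  · exact (lZ33 x).symm
  · exact (lZ34 x).symm
  · exact (lZ35 x).symm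
  · exact (lZ36 x).symm
  · exact (sv00 x).symm
  · exact (sv00 x).symm
  · exact (sv00 x).symm
  · exact (sv00 x).symm
  · exact (sv00 x).symm
  · exact (sv00 x).symm
  · exact (lZ45 x).symm
  · exact (sv00 x).symm
  · exact (sv00 x).symm
  · exact (lZ50 x).symm
  · exact (lZ51 x).symm
  · exact (lZ52 x).symm
  · exact (lZ53 x).symm
  · exact (lZ54 x).symm
  · exact (lZ55 x).symm
  · exact (lZ56 x).symm
  · exact (sv00 x).symm
  · exact (sv00 x).symm
  · exact (sv00 x).symm
  · exact (sv00 x).symm
  · exact (sv00 x).symm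
  · exact (sv00 x).symm
  · exact (sv00 x).symm
  · exact (sv00 x).symm
  · exact (lZ67 x).symm
  · exact (lZ70 x).symm
  · exact (lZ71 x).symm
  · exact (lZ72 x).symm
  · exact (lZ73 x).symm
  · exact (lZ74 x).symm
  · exact (lZ75 x).symm
  · exact (lZ76 x).symm
  · exact (lZ77 x).symm


/-- `v7, v8, v9` -/
def v7 : ℕ × ℕ := (0x1ffff6001, 0)
def v8 : ℕ × ℕ := (0x1ffff7001, 0)
def v9 : ℕ × ℕ := (0x1ffff8001, 0)

theorem sv_v7 : sv x v7 = x 6 := by
  rw [v7, sv_dec x _ _ [(1, [6])] [] (by decide +kernel) (by decide +kernel)]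
  simp [lw]

theorem sv_v8 : sv x v8 = x 7 := by
  rw [v8, sv_dec x _ _ [(1, [7])] [] (by decide +kernel) (by decide +kernel)]
  simp [lw]

theorem sv_v9 : sv x v9 = x 8 := by
  rw [v9, sv_dec x _ _ [(1, [8])] [] (by decide +kernel) (by decide +kernel)]
  simp [lw]

/-- `MY MZ + v7 MX + v8 MY + v9 MZ - M4` -/
def lM (a b : ℕ) : List (Bool × (ℕ × ℕ) × (ℕ × ℕ)) :=
  (true, one, ent m4 a b) :: (false, v7, ent mX a b) :: (false, v8, ent mY a b) :: (false, v9, ent mZ a b) ::
    (List.range 8).map (fun k => (false, ent mY a k, ent mZ k b))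

theorem lM_chk : ((List.range 8).all fun a => (List.range 8).all fun b => zchk' (2 + gw.getD a 0 - gw.getD b 0) (lM a b)) = true := by
  decide +kernel

theorem m4_ok : M4 (fun k : Fin 9 => x k) (fun j : Fin 3 => x (9 + j)) = mm x m4 := by
  ext a b
  have h := lM_chk
  rw [List.all_eq_true] at h
  have h1 := h a (List.mem_range.2 a.2)
  rw [List.all_eq_true] at h1
  have h2 := zchk'_spec x _ _ (h1 b (List.mem_range.2 b.2))
  unfold lM at h2
  simp only [List.map_cons, List.sum_cons, List.map_map, Function.comp_def, sum_map_range] at h2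
  have hs : ∀ b : Bool, (sg b : A) = cond b (-1) 1 := fun b => rfl
  simp only [hs, cond_true, cond_false, neg_mul, one_mul, sv_one, sv_v7, sv_v8, sv_v9] at h2
  unfold M4
  rw [mX_ok, mY_ok, mZ_ok, Matrix.add_apply, Matrix.add_apply, Matrix.add_apply, Matrix.mul_apply]
  simp only [Matrix.smul_apply, smul_eq_mul]
  rw [Finset.sum_range] at h2
  change (∑ k : Fin 8, sv x (ent mY a k) * sv x (ent mZ k b)) + x 6 * sv x (ent mX a b) + x 7 * sv x (ent mY a b) +
    x 8 * sv x (ent mZ a b) = sv x (ent m4 a b)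
  linear_combination h2

end

end Pool.Agent.LibMV18
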